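import Pool.Agent.Helper51.Hart.Core

/-!
# Approximation theorem in `ℂ × ℂ`
-/

set_option autoImplicit false

noncomputable section

open Set Metric Complex MeasureTheory Filter
open scoped Topology ComplexConjugate

namespace Pool.Helper51.Hart

variable {ρ : ℂ × ℂ → ℝ} {σ : ℝ × ℂ → ℝ}

/-- uniformly approximable on `K` by functions holomorphic near `K` -/
def App (K : Set (ℂ × ℂ)) (φ : ℂ × ℂ → ℂ) : Prop :=
  ∀ ε > 0, ∃ U : Set (ℂ × ℂ), IsOpen U ∧ K ⊆ U ∧ ∃ h : ℂ × ℂ → ℂ,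
    DifferentiableOn ℂ h U ∧ ∀ p ∈ K, ‖φ p - h p‖ < ε

theorem App.add {K : Set (ℂ × ℂ)} {φ ψ : ℂ × ℂ → ℂ} (h1 : App K φ) (h2 : App K ψ) :
    App K (fun p => φ p + ψ p) := by
  intro ε hε
  obtain ⟨U, hU, hKU, h, hh, he⟩ := h1 (ε / 2) (by linarith)
  obtain ⟨V, hV, hKV, k, hk, he'⟩ := h2 (ε / 2) (by linarith)
  refine ⟨U ∩ V, hU.inter hV, subset_inter hKU hKV, fun p => h p + k p,
    (hh.mono inter_subset_left).add (hk.mono inter_subset_right), fun p hp => ?_⟩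
  have : φ p + ψ p - (h p + k p) = (φ p - h p) + (ψ p - k p) := by ring
  rw [this]
  refine (norm_add_le _ _).trans_lt ?_
  linarith [he p hp, he' p hp]

theorem App.const_mul {K : Set (ℂ × ℂ)} {φ : ℂ × ℂ → ℂ} (h1 : App K φ) (c : ℂ) :
    App K (fun p => c * φ p) := by
  intro ε hε
  obtain ⟨U, hU, hKU, h, hh, he⟩ := h1 (ε / (‖c‖ + 1)) (by positivity)
  refine ⟨U, hU, hKU, fun p => c * h p, hh.const_mul c, fun p hp => ?_⟩
  rw [← mul_sub, norm_mul]
  have h2 := he p hp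
  rw [lt_div_iff₀ (by positivity)] at h2
  nlinarith [norm_nonneg (φ p - h p), norm_nonneg c]

theorem App.zero {K : Set (ℂ × ℂ)} : App K (fun _ => 0) := by
  intro ε hε
  exact ⟨univ, isOpen_univ, subset_univ _, fun _ => 0, differentiableOn_const _,
    fun p _ => by simpa using hε⟩

theorem App.congr {K : Set (ℂ × ℂ)} {φ ψ : ℂ × ℂ → ℂ} (h1 : App K φ)
    (h : ∀ p ∈ K, φ p = ψ p) : App K ψ := by
  intro ε hε
  obtain ⟨U, hU, hKU, k, hk, he⟩ := h1 ε hε
  exact ⟨U, hU, hKU, k, hk, fun p hp => by rw [← h p hp]; exact he p hp⟩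

theorem App.sum {K : Set (ℂ × ℂ)} {ι : Type*} (s : Finset ι) {φ : ι → ℂ × ℂ → ℂ}
    (h : ∀ i ∈ s, App K (φ i)) : App K (fun p => ∑ i ∈ s, φ i p) := by
  classical
  induction s using Finset.induction_on with
  | empty => simpa using App.zero
  | insert a s ha ih =>
    have h1 := (h a (Finset.mem_insert_self a s)).add
      (ih fun i hi => h i (Finset.mem_insert_of_mem hi))
    refine h1.congr fun p _ => ?_
    rw [Finset.sum_insert ha]

theorem App.of_close {K : Set (ℂ × ℂ)} {φ : ℂ × ℂ → ℂ}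
    (h : ∀ ε > 0, ∃ ψ, App K ψ ∧ ∀ p ∈ K, ‖φ p - ψ p‖ < ε) : App K φ := by
  intro ε hε
  obtain ⟨ψ, h1, h2⟩ := h (ε / 2) (by linarith)
  obtain ⟨U, hU, hKU, k, hk, he⟩ := h1 (ε / 2) (by linarith)
  refine ⟨U, hU, hKU, k, hk, fun p hp => ?_⟩
  have : φ p - k p = (φ p - ψ p) + (ψ p - k p) := by ring
  rw [this]
  refine (norm_add_le _ _).trans_lt ?_
  linarith [he p hp, h2 p hp]

theorem exists_box (hσ : Slice σ) {r : ℝ} {w : ℂ} (hr : 0 ≤ r) (h : σ (r, w) ≤ 0) :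
    ∃ a b δ, a < r ∧ r < b ∧ GoodBox σ a b w δ := by
  obtain ⟨α, β, hm, hmem⟩ := exists_maxInt hσ hr h
  by_cases hI : ∃ rs ∈ Icc α β, σ (rs, w) < 0
  · obtain ⟨rs, hrs, hneg⟩ := hI
    obtain ⟨a, b, δ, h1, h2, h3⟩ := box_typeI hσ (local_conn hσ) hm hrs hneg
    exact ⟨a, b, δ, lt_of_lt_of_le h1 hmem.1, lt_of_le_of_lt hmem.2 h2, h3⟩
  · push Not at hI
    have hI' : ∀ s ∈ Icc α β, ¬ σ (s, w) < 0 := fun s hs => not_lt.2 (hI s hs)
    have hdv := typeII_deriv hσ hm hI'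
    -- the direction vector
    let n : ℝ → ℂ := fun s => -(fderiv ℝ σ (s, w) (0, 1) : ℂ) - I * fderiv ℝ σ (s, w) (0, I)
    have hn : ∀ s (η : ℂ), fderiv ℝ σ (s, w) (0, η) = -((starRingEnd ℂ) (n s) * η).re := by
      intro s η
      have e1 : ((0 : ℝ), η) = η.re • ((0 : ℝ), (1 : ℂ)) + η.im • ((0 : ℝ), I) := by
        ext <;> simp
      rw [e1, map_add, map_smul, map_smul]
      simp only [n, smul_eq_mul, map_sub, map_neg, map_mul, conj_ofReal, conj_I, mul_re, sub_re,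
        neg_re, ofReal_re, sub_im, neg_im, ofReal_im, mul_im, I_re, I_im]
      ring
    have hcf : Continuous (fun s : ℝ => fderiv ℝ σ (s, w)) :=
      (hσ.smooth.continuous_fderiv (by norm_num)).comp (continuous_id.prodMk continuous_const)
    have hncont : Continuous n := by
      have h1 : Continuous fun s : ℝ => (fderiv ℝ σ (s, w)) (0, 1) := hcf.clm_apply continuous_const
      have h2 : Continuous fun s : ℝ => (fderiv ℝ σ (s, w)) (0, I) := hcf.clm_apply continuous_const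
      exact (continuous_ofReal.comp h1).neg.sub (continuous_const.mul (continuous_ofReal.comp h2))
    have hn0 : ∀ s ∈ Icc α β, n s ≠ 0 := by
      intro s hs h0
      refine hσ.reg (s, w) (hdv s hs).1 ?_
      refine ContinuousLinearMap.ext fun q => ?_
      obtain ⟨x, η⟩ := q
      have e1 : (x, η) = x • ((1 : ℝ), (0 : ℂ)) + ((0 : ℝ), η) := by
        ext <;> simp
      rw [e1, map_add, map_smul, (hdv s hs).2, hn s η, h0]
      simp
    have hne : ∀ s ∈ Icc α β, ∃ η : ℂ, fderiv ℝ σ (s, w) (0, η) ≠ 0 := by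
      intro s hs
      refine ⟨n s, ?_⟩
      rw [hn s]
      have e1 : (starRingEnd ℂ) (n s) * n s = ((Complex.normSq (n s) : ℝ) : ℂ) := by
        rw [mul_comm, Complex.mul_conj]
      rw [e1, ofReal_re]
      have := Complex.normSq_pos.2 (hn0 s hs)
      linarith
    obtain ⟨v, hv, hneg⟩ : ∃ v : ℂ, ‖v‖ = 1 ∧ ∀ s ∈ Icc α β, fderiv ℝ σ (s, w) (0, v) < 0 := by
      rcases half_plane hm.2.1 n hncont.continuousOn hn0 with ⟨v, hv, h1⟩ |
        ⟨r1, r2, v, h1, h2, h3, h4, h5, h6, h7⟩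
      · refine ⟨v, hv, fun s hs => ?_⟩
        rw [hn s v]
        linarith [h1 s hs]
      · exfalso
        have hsub : ∀ s ∈ Icc r1 r2, s ∈ Icc α β := fun s hs => ⟨h1.trans hs.1, hs.2.trans h3⟩
        have hpos : ∀ s ∈ Ioo r1 r2, fderiv ℝ σ (s, w) (0, v) < 0 := by
          intro s hs
          rw [hn s v]
          linarith [h5 s hs]
        have hz1 : fderiv ℝ σ (r1, w) (0, v) = 0 := by rw [hn r1 v, h6]; simp
        have hz2 : fderiv ℝ σ (r2, w) (0, v) = 0 := by rw [hn r2 v, h7]; simp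
        have hr1 : 0 ≤ r1 := hm.1.trans h1
        have hk : ∀ s ∈ Icc r1 r2, σ (s, w) = 0 := fun s hs => (hdv s (hsub s hs)).1
        obtain ⟨s1, s2⟩ := slope hσ (compare hσ) hr1 h2 h4 hk hpos
          (fun s hs => hne s (hsub s hs)) hz1 hz2
        exact no_critical hσ (push_out hσ) hr1 h2 hk hpos hz1 hz2 s1 s2
    obtain ⟨a, b, δ, h1, h2, h3⟩ := box_typeII hσ hm hv hneg
    exact ⟨a, b, δ, lt_of_lt_of_le h1 hmem.1, lt_of_le_of_lt hmem.2 h2, h3⟩

theorem slice_of (hρ : HDom ρ) (hS : SteinBasis (closure {p | ρ p < 0})) : Slice (sl ρ) := by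
  have hf := hfacts hρ
  rw [hf.closure_eq] at hS
  have hK := kontP _ hf.cpt.isClosed hS
  exact ⟨sl_smooth hρ, sl_cpt hρ, sl_reg hρ, sl_deriv0 hρ, sl_kont1 hf hK, sl_kont0 hf hK,
    sl_kont2 hf hK⟩

/-- the circular average of a function holomorphic on `{ρ ≤ 0}` is approximable on the slice -/
theorem approx_avg (hρ : HDom ρ) (hS : SteinBasis (closure {p | ρ p < 0})) {F : ℂ × ℂ → ℂ}
    (hF : CR ρ F) {ε : ℝ} (hε : 0 < ε) :
    ∃ (U : Set (ℂ × ℂ)) (h : ℂ × ℂ → ℂ), IsOpen U ∧ {p | ρ p ≤ 0} ⊆ U ∧ DifferentiableOn ℂ h U ∧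
      ∀ z w, ρ (z, w) ≤ 0 → ‖h (z, w) - avg F ‖z‖ w‖ < ε := by
  have hf := hfacts hρ
  have hc := hρ.smooth.continuous
  have hσ := slice_of hρ hS
  have hF1 := CR.dw hf hc hF
  have hF2 := CR.dw hf hc hF1
  obtain ⟨U, h, hU, hKU, hloc, happ⟩ := core hσ (jetSys_of_CR hf hF hF1 hF2)
    (fun r w hr h => exists_box hσ hr h) hε
  have hcont : Continuous fun p : ℂ × ℂ => (‖p.1‖, p.2) := continuous_fst.norm.prodMk continuous_snd
  refine ⟨(fun p : ℂ × ℂ => (‖p.1‖, p.2)) ⁻¹' U, fun p => h ‖p.1‖ p.2, hU.preimage hcont,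
    ?_, ?_, ?_⟩
  · rintro ⟨z, w⟩ hp
    exact hKU ‖z‖ w (norm_nonneg _) ((hf.norm_le z w).1 hp)
  · rintro ⟨z, w⟩ hp
    obtain ⟨δ, hδ, H, hH, hHe⟩ := hloc ‖z‖ w hp (norm_nonneg _)
    have h1 : DifferentiableAt ℂ (fun p : ℂ × ℂ => H p.2) (z, w) := by
      have : DifferentiableAt ℂ H w := hH.differentiableAt (ball_mem_nhds w hδ)
      exact DifferentiableAt.comp (z, w) this differentiableAt_snd
    have h2 : (fun p : ℂ × ℂ => h ‖p.1‖ p.2) =ᶠ[𝓝 (z, w)] fun p => H p.2 := by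
      have h3 : {p : ℂ × ℂ | |‖p.1‖ - ‖z‖| < δ ∧ ‖p.2 - w‖ < δ} ∈ 𝓝 (z, w) := by
        refine IsOpen.mem_nhds ?_ ⟨by simpa using hδ, by simpa using hδ⟩
        exact (isOpen_lt ((continuous_fst.norm.sub continuous_const).abs) continuous_const).inter
          (isOpen_lt ((continuous_snd.sub continuous_const).norm) continuous_const)
      filter_upwards [h3] with p hp
      exact hHe _ _ (norm_nonneg _) hp.1 hp.2
    exact (h1.congr_of_eventuallyEq h2).differentiableWithinAt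
  · intro z w hzw
    exact happ ‖z‖ w (norm_nonneg _) ((hf.norm_le z w).1 hzw)

theorem CR.powz {F : ℂ × ℂ → ℂ} (hF : CR ρ F) (k : ℕ) : CR ρ (fun p => p.1 ^ k * F p) := by
  induction k with
  | zero => simpa using hF
  | succ k ih =>
    have := ih.mulz
    have e : (fun p : ℂ × ℂ => p.1 ^ (k + 1) * F p) = fun p => p.1 * (p.1 ^ k * F p) := by
      funext p; ring
    rw [e]; exact this

theorem fc_zero_at (g : ℂ × ℂ → ℂ) {k : ℤ} (hk : k ≠ 0) (w : ℂ) : fc g k 0 w = 0 := by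
  unfold fc
  simp only [mul_zero]
  rw [intervalIntegral.integral_const_mul]
  have hkI : -((k : ℂ) * I) ≠ 0 := by
    simp [hk]
  have e : (fun θ : ℝ => Complex.exp (-(k * θ * I))) = fun θ : ℝ =>
      Complex.exp (-((k : ℂ) * I) * θ) := by
    funext θ; congr 1; ring
  rw [e, integral_exp_mul_complex hkI]
  have h1 : Complex.exp (-((k : ℂ) * I) * ((2 * Real.pi : ℝ) : ℂ)) = 1 := by
    rw [Complex.exp_eq_one_iff]
    refine ⟨-k, ?_⟩
    push_cast; ring
  rw [h1]; simp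

theorem app_fc (hρ : HDom ρ) (hconn : IsConnected {p | ρ p < 0})
    (hS : SteinBasis (closure {p | ρ p < 0})) {g : ℂ × ℂ → ℂ} (hg : CR ρ g) (k : ℤ) :
    App {p | ρ p ≤ 0} (fun p => fc g k p.1 p.2) := by
  have hf := hfacts hρ
  have hc := hρ.smooth.continuous
  rcases le_or_gt 0 k with hk | hk
  · obtain ⟨n, rfl⟩ := Int.eq_ofNat_of_zero_le hk
    obtain ⟨F, hF, hFe⟩ := fc_nonneg hf (fun F => CR.dz hf hc) (fun c F hF => hF.smul c) hg n
    obtain ⟨D, hD⟩ := hf.cpt.isBounded.exists_norm_le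
    intro ε hε
    obtain ⟨U, h, hU, hKU, hh, happ⟩ := approx_avg hρ hS hF
      (ε := ε / ((max D 0) ^ n + 1)) (by positivity)
    refine ⟨U, hU, hKU, fun p => p.1 ^ n * h p, ?_, ?_⟩
    · exact (differentiable_fst.differentiableOn.pow n).mul hh
    · rintro ⟨z, w⟩ hp
      have h1 := happ z w hp
      simp only
      rw [hFe z w hp, ← mul_sub, norm_mul, norm_pow, norm_sub_rev]
      rw [lt_div_iff₀ (by positivity)] at h1
      have h2 : ‖z‖ ≤ max D 0 := by
        have := hD (z, w) hp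
        rw [Prod.norm_def] at this
        exact (le_max_left _ _).trans (this.trans (le_max_left _ _))
      have h3 : ‖z‖ ^ n ≤ (max D 0) ^ n := pow_le_pow_left₀ (norm_nonneg _) h2 n
      have h4 := norm_nonneg (h (z, w) - avg F ‖z‖ w)
      nlinarith [mul_le_mul_of_nonneg_right h3 h4]
  · obtain ⟨n, hn⟩ : ∃ n : ℕ, k = -((n : ℤ)) := ⟨k.natAbs, by omega⟩
    have hn0 : n ≠ 0 := by rintro rfl; simp at hn; omega
    have hcr := hg.powz n
    by_cases h0 : ∃ w0, ρ (0, w0) ≤ 0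
    · obtain ⟨w0, hw0⟩ := h0
      have hj := jetSys_of_CR hf hcr (CR.dw hf hc hcr) (CR.dw hf hc (CR.dw hf hc hcr))
      have hv := avg_vanish hρ hf hconn hcr.1.continuous hj (fun w => by simp [hn0]) hw0
      refine App.zero.congr ?_
      rintro ⟨z, w⟩ hp
      by_cases hz : z = 0
      · subst hz
        rw [fc_zero_at g (by omega) w]
      · have h1 := fc_neg (g := g) n z w
        rw [hv ‖z‖ w (norm_nonneg _) ((hf.norm_le z w).1 hp)] at h1
        have h2 : z ^ n ≠ 0 := pow_ne_zero n hz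
        have h3 := (mul_eq_zero.1 h1).resolve_left h2
        rw [hn]; exact h3.symm
    · push Not at h0
      have hz : ∀ p ∈ {p | ρ p ≤ 0}, p.1 ≠ 0 := by
        rintro ⟨z, w⟩ hp rfl
        exact absurd hp (not_le.2 (h0 w))
      obtain ⟨η, hη, hηle⟩ : ∃ η > 0, ∀ p ∈ {p | ρ p ≤ 0}, η ≤ ‖p.1‖ := by
        rcases (({p | ρ p ≤ 0} : Set (ℂ × ℂ))).eq_empty_or_nonempty with he | hne
        · exact ⟨1, one_pos, fun p hp => by rw [he] at hp; exact absurd hp (notMem_empty _)⟩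
        · obtain ⟨p0, hp0, hmin⟩ := hf.cpt.exists_isMinOn hne
            (continuous_fst.norm : Continuous fun p : ℂ × ℂ => ‖p.1‖).continuousOn
          exact ⟨‖p0.1‖, norm_pos_iff.2 (hz p0 hp0), fun p hp => hmin hp⟩
      intro ε hε
      obtain ⟨U, h, hU, hKU, hh, happ⟩ := approx_avg hρ hS hcr (ε := ε * η ^ n) (by positivity)
      have hopen : IsOpen {p : ℂ × ℂ | p.1 ≠ 0} := isOpen_ne_fun continuous_fst continuous_const
      refine ⟨U ∩ {p | p.1 ≠ 0}, hU.inter hopen, fun p hp => ⟨hKU hp, hz p hp⟩,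
        fun p => h p / p.1 ^ n, ?_, ?_⟩
      · have e : (fun p : ℂ × ℂ => h p / p.1 ^ n) = fun p => h p * (p.1 ^ n)⁻¹ := by
          funext p; rw [div_eq_mul_inv]
        rw [e]
        refine (hh.mono inter_subset_left).mul ?_
        refine DifferentiableOn.fun_inv (differentiable_fst.pow n).differentiableOn ?_
        rintro p ⟨-, hp⟩
        exact pow_ne_zero n hp
      · rintro ⟨z, w⟩ hp
        have h1 := happ z w hp
        have h2 := fc_neg (g := g) n z w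
        have hz0 : z ≠ 0 := hz (z, w) hp
        have h3 : z ^ n ≠ 0 := pow_ne_zero n hz0
        have h4 : fc g k z w = avg (fun p => p.1 ^ n * g p) ‖z‖ w / z ^ n := by
          rw [hn, eq_div_iff h3, mul_comm]; exact h2
        simp only
        rw [h4, ← sub_div, norm_div, norm_pow, norm_sub_rev, div_lt_iff₀ (by positivity)]
        refine h1.trans_le ?_
        exact mul_le_mul_of_nonneg_left (pow_le_pow_left₀ hη.le (hηle (z, w) hp) n) hε.le

theorem approx_prod (hρ : HDom ρ) (hconn : IsConnected {p | ρ p < 0})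
    (hS : SteinBasis (closure {p | ρ p < 0})) {g : ℂ × ℂ → ℂ}
    (hg : ContDiff ℝ ((⊤ : ℕ∞) : WithTop ℕ∞) g) (hh : DifferentiableOn ℂ g {p | ρ p < 0})
    {ε : ℝ} (hε : 0 < ε) :
    ∃ U : Set (ℂ × ℂ), IsOpen U ∧ closure {p | ρ p < 0} ⊆ U ∧ ∃ h : ℂ × ℂ → ℂ,
      DifferentiableOn ℂ h U ∧ ∀ p ∈ closure {p | ρ p < 0}, ‖g p - h p‖ < ε := by
  have hf := hfacts hρ
  have hCR := CR_of_hol hf hρ.smooth.continuous hg hh
  rw [hf.closure_eq]
  have : App {p | ρ p ≤ 0} g := by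
    refine App.of_close fun ε' hε' => ?_
    obtain ⟨s, c, hsc⟩ := trig_approx hf hg.continuous hε'
    refine ⟨fun p => ∑ k ∈ s, c k * fc g k p.1 p.2, App.sum s fun k _ => ?_, ?_⟩
    · exact (app_fc hρ hconn hS hCR k).const_mul (c k)
    · rintro ⟨z, w⟩ hp
      exact hsc z w hp
  exact this ε hε

end Pool.Helper51.Hart
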