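import Pool.Agent.Helper51.Hart.Defs2

/-!
# Finite étale atlas: disjointification, lifting, gluing of test functions
-/

set_option autoImplicit false

noncomputable section

open Set Metric Complex MeasureTheory

namespace Pool.Helper51.Hart

variable {m : ℕ} {P : Fin m → Set ℂ} {S : Fin m → Fin m → Set ℂ} {R : ℝ}

/-- points of the chart `j` not seen by earlier charts -/
def aE (P : Fin m → Set ℂ) (S : Fin m → Fin m → Set ℂ) (j : Fin m) : Set ℂ :=
  {w | w ∈ P j ∧ ∀ l, l < j → w ∉ S j l}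

/-- lift of a family given on the `aE j` to all charts -/
def alift (P : Fin m → Set ℂ) (S : Fin m → Fin m → Set ℂ) (F : Fin m → ℂ → ℂ) (i : Fin m) :
    ℂ → ℂ :=
  fun w => ∑ j, (aE P S j ∩ S i j).indicator (F j) w

/-- the family obtained by gluing one function per chart -/
def acomp (S : Fin m → Fin m → Set ℂ) (b : Fin m → ℂ → ℂ) (j : Fin m) : ℂ → ℂ :=
  fun w => ∑ i, (S i j).indicator (b i) w

theorem Atlas.sub_left (hP : Atlas m P S R) {i j : Fin m} {w : ℂ} (h : w ∈ S i j) : w ∈ P i :=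
  (hP.sub i j h).1

theorem Atlas.sub_right (hP : Atlas m P S R) {i j : Fin m} {w : ℂ} (h : w ∈ S i j) : w ∈ P j :=
  (hP.sub i j h).2

theorem Atlas.tr (hP : Atlas m P S R) {i j k : Fin m} {w : ℂ} (h : w ∈ S i j) (h' : w ∈ S j k) :
    w ∈ S i k := hP.trans i j k ⟨h, h'⟩

theorem Atlas.self (hP : Atlas m P S R) {i : Fin m} {w : ℂ} (h : w ∈ P i) : w ∈ S i i := by
  rw [hP.refl i]; exact h

theorem aE_sub (j : Fin m) : aE P S j ⊆ P j := fun _ h => h.1

theorem measurableSet_aE (hP : Atlas m P S R) (j : Fin m) : MeasurableSet (aE P S j) := by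
  have : aE P S j = P j ∩ ⋂ l, {w | l < j → w ∉ S j l} := by
    ext w; simp [aE]
  rw [this]
  refine (hP.openP j).measurableSet.inter (MeasurableSet.iInter fun l => ?_)
  by_cases h : l < j
  · have : {w | l < j → w ∉ S j l} = (S j l)ᶜ := by ext w; simp [h]
    rw [this]
    exact (hP.openS j l).measurableSet.compl
  · have : {w : ℂ | l < j → w ∉ S j l} = univ := by ext w; simp [h]
    rw [this]; exact MeasurableSet.univ

theorem existsUnique_aE (hP : Atlas m P S R) {i : Fin m} {w : ℂ} (h : w ∈ P i) :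
    ∃! j, w ∈ aE P S j ∩ S i j := by
  classical
  let T : Finset (Fin m) := Finset.univ.filter (fun j => w ∈ S i j)
  have hT : T.Nonempty := ⟨i, by simp [T, hP.self h]⟩
  have hm := T.min'_mem hT
  have hmS : w ∈ S i (T.min' hT) := by simpa [T] using hm
  refine ⟨T.min' hT, ⟨⟨hP.sub_right hmS, fun l hl hw => ?_⟩, hmS⟩, ?_⟩
  · have : l ∈ T := by simpa [T] using hP.tr hmS hw
    exact absurd (T.min'_le l this) (not_le.2 hl)
  · rintro j ⟨⟨hj1, hj2⟩, hj3⟩
    have hjT : j ∈ T := by simpa [T] using hj3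
    rcases lt_or_eq_of_le (T.min'_le j hjT) with hlt | heq
    · exact absurd (hP.tr (hP.symm _ _ hj3) hmS) (hj2 _ hlt)
    · exact heq.symm

theorem alift_eq (hP : Atlas m P S R) (F : Fin m → ℂ → ℂ) {i j : Fin m} {w : ℂ}
    (h : w ∈ aE P S j ∩ S i j) : alift P S F i w = F j w := by
  unfold alift
  rw [Finset.sum_eq_single j]
  · exact indicator_of_mem h _
  · intro l _ hl
    refine indicator_of_notMem (fun h' => hl ?_) _
    exact (existsUnique_aE hP (hP.sub_left h.2)).unique h' h
  · simp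

theorem alift_compat (hP : Atlas m P S R) (F : Fin m → ℂ → ℂ) {i l : Fin m} {w : ℂ}
    (h : w ∈ S i l) : alift P S F i w = alift P S F l w := by
  obtain ⟨j, hj, -⟩ := existsUnique_aE hP (hP.sub_left h)
  rw [alift_eq hP F hj, alift_eq hP F ⟨hj.1, hP.tr (hP.symm _ _ h) hj.2⟩]

theorem alift_of_compat (hP : Atlas m P S R) {F : Fin m → ℂ → ℂ}
    (hF : ∀ i j, ∀ w ∈ S i j, F i w = F j w) {i : Fin m} {w : ℂ} (h : w ∈ P i) :
    alift P S F i w = F i w := by
  obtain ⟨j, hj, -⟩ := existsUnique_aE hP h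
  rw [alift_eq hP F hj, hF i j w hj.2]

theorem acomp_compat (hP : Atlas m P S R) (b : Fin m → ℂ → ℂ) {j l : Fin m} {w : ℂ}
    (h : w ∈ S j l) : acomp S b j w = acomp S b l w := by
  unfold acomp
  refine Finset.sum_congr rfl fun i _ => ?_
  by_cases hw : w ∈ S i j
  · rw [indicator_of_mem hw, indicator_of_mem (hP.tr hw h)]
  · have : w ∉ S i l := fun h' => hw (hP.tr h' (hP.symm _ _ h))
    rw [indicator_of_notMem hw, indicator_of_notMem this]

theorem P_eq_iUnion (hP : Atlas m P S R) (i : Fin m) : P i = ⋃ j, (aE P S j ∩ S i j) := by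
  ext w
  simp only [mem_iUnion]
  constructor
  · intro h
    obtain ⟨j, hj, -⟩ := existsUnique_aE hP h
    exact ⟨j, hj⟩
  · rintro ⟨j, hj⟩
    exact hP.sub_left hj.2

theorem measurableSet_piece (hP : Atlas m P S R) (i j : Fin m) :
    MeasurableSet (aE P S j ∩ S i j) :=
  (measurableSet_aE hP j).inter (hP.openS i j).measurableSet

theorem disj_piece (hP : Atlas m P S R) (i : Fin m) :
    Pairwise (Function.onFun Disjoint fun j => aE P S j ∩ S i j) := by
  intro j l hjl
  rw [Function.onFun, disjoint_left]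
  intro w h h'
  exact hjl ((existsUnique_aE hP (hP.sub_left h.2)).unique h h')

/-- lintegral over a chart is the sum over the pieces -/
theorem lintegral_piece (hP : Atlas m P S R) (i : Fin m) (f : ℂ → ENNReal) :
    ∫⁻ w in P i, f w = ∑ j, ∫⁻ w in aE P S j ∩ S i j, f w := by
  rw [P_eq_iUnion hP i, lintegral_iUnion (measurableSet_piece hP i) (disj_piece hP i), tsum_fintype]

theorem integral_piece (hP : Atlas m P S R) (i : Fin m) {f : ℂ → ℂ}
    (hf : IntegrableOn f (P i)) :
    ∫ w in P i, f w = ∑ j, ∫ w in aE P S j ∩ S i j, f w := by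
  have h := integral_iUnion (μ := volume) (f := f) (measurableSet_piece hP i) (disj_piece hP i)
    (by rw [← P_eq_iUnion hP i]; exact hf)
  rw [← P_eq_iUnion hP i, tsum_fintype] at h
  exact h

end Pool.Helper51.Hart
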