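import Pool.Agent.Helper51.Hart.Atlas1

/-!
# Smoothness of glued test families
-/

set_option autoImplicit false

noncomputable section

open Set Metric Complex MeasureTheory Filter
open scoped Topology

namespace Pool.Helper51.Hart

variable {m : ℕ} {P : Fin m → Set ℂ} {S : Fin m → Fin m → Set ℂ} {R : ℝ}

/-- test tuples: one compactly supported smooth function per chart -/
def IsTest (P : Fin m → Set ℂ) (a : Fin m → ℂ → ℂ) : Prop :=
  ∀ i, ContDiff ℝ ((⊤ : ℕ∞) : WithTop ℕ∞) (a i) ∧ HasCompactSupport (a i) ∧ tsupport (a i) ⊆ P i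

theorem indicator_local (hP : Atlas m P S R) {b : ℂ → ℂ} {i j : Fin m}
    (hb : tsupport b ⊆ P i) {w : ℂ} (hw : w ∈ P j) :
    (w ∈ S i j ∧ (S i j).indicator b =ᶠ[𝓝 w] b) ∨
    (w ∉ S i j ∧ (S i j).indicator b =ᶠ[𝓝 w] fun _ => 0) := by
  by_cases h : w ∈ S i j
  · left
    refine ⟨h, ?_⟩
    filter_upwards [(hP.openS i j).mem_nhds h] with w' hw'
    exact indicator_of_mem hw' _
  · right
    refine ⟨h, ?_⟩
    by_cases hi : w ∈ P i
    · filter_upwards [(hP.clop i j).mem_nhds ⟨⟨hi, hw⟩, h⟩] with w' hw'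
      exact indicator_of_notMem hw'.2 _
    · have : w ∈ (tsupport b)ᶜ := fun h' => hi (hb h')
      filter_upwards [(isClosed_tsupport b).isOpen_compl.mem_nhds this] with w' hw'
      have h0 : b w' = 0 := image_eq_zero_of_notMem_tsupport hw'
      by_cases hs : w' ∈ S i j
      · rw [indicator_of_mem hs, h0]
      · rw [indicator_of_notMem hs]

theorem acomp_contDiffAt (hP : Atlas m P S R) {a : Fin m → ℂ → ℂ} {n : WithTop ℕ∞}
    (ha : ∀ i, ContDiff ℝ n (a i)) (hs : ∀ i, tsupport (a i) ⊆ P i) {j : Fin m}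
    {w : ℂ} (hw : w ∈ P j) : ContDiffAt ℝ n (acomp S a j) w := by
  have : acomp S a j = fun w => ∑ i, (S i j).indicator (a i) w := rfl
  rw [this]
  refine ContDiffAt.sum fun i _ => ?_
  rcases indicator_local hP (hs i) hw with ⟨-, h⟩ | ⟨-, h⟩
  · exact ((ha i).contDiffAt).congr_of_eventuallyEq h
  · exact (contDiffAt_const (c := (0 : ℂ))).congr_of_eventuallyEq h

/-- any first order operator commutes with gluing -/
theorem acomp_fderiv (hP : Atlas m P S R) {a : Fin m → ℂ → ℂ}
    (ha : ∀ i, ContDiff ℝ 1 (a i)) (hs : ∀ i, tsupport (a i) ⊆ P i) {j : Fin m}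
    {w : ℂ} (hw : w ∈ P j) (v : ℂ) :
    fderiv ℝ (acomp S a j) w v = ∑ i, (S i j).indicator (fun w => fderiv ℝ (a i) w v) w := by
  have h1 : acomp S a j = fun w => ∑ i, (S i j).indicator (a i) w := rfl
  rw [h1, fderiv_fun_sum]
  · rw [sum_apply]
    refine Finset.sum_congr rfl fun i _ => ?_
    rcases indicator_local hP (hs i) hw with ⟨hw', h⟩ | ⟨hw', h⟩
    · rw [h.fderiv_eq, indicator_of_mem hw']
    · rw [h.fderiv_eq, indicator_of_notMem hw']
      simp
  · intro i _
    rcases indicator_local hP (hs i) hw with ⟨-, h⟩ | ⟨-, h⟩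
    · exact (((ha i).contDiffAt).congr_of_eventuallyEq h).differentiableAt one_ne_zero
    · exact ((contDiffAt_const (n := 1) (c := (0 : ℂ))).congr_of_eventuallyEq
        h).differentiableAt one_ne_zero

theorem acomp_dbar (hP : Atlas m P S R) {a : Fin m → ℂ → ℂ}
    (ha : ∀ i, ContDiff ℝ 1 (a i)) (hs : ∀ i, tsupport (a i) ⊆ P i) {j : Fin m}
    {w : ℂ} (hw : w ∈ P j) :
    dbar (acomp S a j) w = acomp S (fun i => dbar (a i)) j w := by
  unfold dbar
  rw [acomp_fderiv hP ha hs hw, acomp_fderiv hP ha hs hw, Finset.mul_sum, ← Finset.sum_add_distrib]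
  unfold acomp
  refine Finset.sum_congr rfl fun i _ => ?_
  by_cases h : w ∈ S i j
  · simp [indicator_of_mem h]
  · simp [indicator_of_notMem h]

theorem acomp_dhol (hP : Atlas m P S R) {a : Fin m → ℂ → ℂ}
    (ha : ∀ i, ContDiff ℝ 1 (a i)) (hs : ∀ i, tsupport (a i) ⊆ P i) {j : Fin m}
    {w : ℂ} (hw : w ∈ P j) :
    dhol (acomp S a j) w = acomp S (fun i => dhol (a i)) j w := by
  unfold dhol
  rw [acomp_fderiv hP ha hs hw, acomp_fderiv hP ha hs hw, Finset.mul_sum, ← Finset.sum_sub_distrib]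
  unfold acomp
  refine Finset.sum_congr rfl fun i _ => ?_
  by_cases h : w ∈ S i j
  · simp [indicator_of_mem h]
  · simp [indicator_of_notMem h]

theorem dbar_continuous {a : ℂ → ℂ} (ha : ContDiff ℝ 1 a) : Continuous (dbar a) := by
  have h := ha.continuous_fderiv one_ne_zero
  unfold dbar
  exact (h.clm_apply continuous_const).add (continuous_const.mul (h.clm_apply continuous_const))

theorem dhol_continuous {a : ℂ → ℂ} (ha : ContDiff ℝ 1 a) : Continuous (dhol a) := by
  have h := ha.continuous_fderiv one_ne_zero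
  unfold dhol
  exact (h.clm_apply continuous_const).sub (continuous_const.mul (h.clm_apply continuous_const))

theorem fderiv_zero_off {a : ℂ → ℂ} {w : ℂ} (hw : w ∉ tsupport a) : fderiv ℝ a w = 0 := by
  have : a =ᶠ[𝓝 w] fun _ => 0 := by
    filter_upwards [(isClosed_tsupport a).isOpen_compl.mem_nhds hw] with w' hw'
    exact image_eq_zero_of_notMem_tsupport hw'
  rw [this.fderiv_eq]; simp

theorem dbar_tsupport (a : ℂ → ℂ) : tsupport (dbar a) ⊆ tsupport a := by
  refine closure_minimal (fun w hw => ?_) (isClosed_tsupport a)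
  by_contra h
  refine hw ?_
  simp [dbar, fderiv_zero_off h]

theorem dhol_tsupport (a : ℂ → ℂ) : tsupport (dhol a) ⊆ tsupport a := by
  refine closure_minimal (fun w hw => ?_) (isClosed_tsupport a)
  by_contra h
  refine hw ?_
  simp [dhol, fderiv_zero_off h]

end Pool.Helper51.Hart
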