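import Pool.Agent.Helper51.Hart.Atlas2

/-!
# The pairing formula of the `L²` space of the atlas
-/

set_option autoImplicit false

noncomputable section

open Set Metric Complex MeasureTheory Filter
open scoped Topology ComplexConjugate

namespace Pool.Helper51.Hart

variable {m : ℕ} {P : Fin m → Set ℂ} {S : Fin m → Fin m → Set ℂ} {R : ℝ}

theorem volume_aE_lt_top (hP : Atlas m P S R) (j : Fin m) :
    volume (aE P S j) < ⊤ :=
  lt_of_le_of_lt (measure_mono ((aE_sub j).trans (hP.bdd j))) measure_ball_lt_top

theorem volume_P_lt_top (hP : Atlas m P S R) (j : Fin m) :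
    volume (P j) < ⊤ :=
  lt_of_le_of_lt (measure_mono (hP.bdd j)) measure_ball_lt_top

theorem isFinite_aE (hP : Atlas m P S R) (j : Fin m) :
    IsFiniteMeasure (volume.restrict (aE P S j)) :=
  ⟨by rw [Measure.restrict_apply_univ]; exact volume_aE_lt_top hP j⟩

theorem isFinite_P (hP : Atlas m P S R) (j : Fin m) :
    IsFiniteMeasure (volume.restrict (P j)) :=
  ⟨by rw [Measure.restrict_apply_univ]; exact volume_P_lt_top hP j⟩

theorem integrableOn_of_memLp (hP : Atlas m P S R) {j : Fin m} {f : ℂ → ℂ}
    (hf : MemLp f 2 (volume.restrict (aE P S j))) : IntegrableOn f (aE P S j) := by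
  have := isFinite_aE hP j
  exact (hf.mono_exponent (by norm_num : (1 : ENNReal) ≤ 2)).integrable le_rfl

theorem integrableOn_mul_conj {s : Set ℂ} {b f : ℂ → ℂ} (hb : Continuous b)
    (hbc : HasCompactSupport b) (hf : IntegrableOn f s) :
    IntegrableOn (fun w => conj (b w) * f w) s := by
  obtain ⟨C, hC⟩ := hbc.exists_bound_of_continuous hb
  refine Integrable.bdd_mul (c := C) hf ?_ ?_
  · exact (continuous_conj.comp hb).aestronglyMeasurable
  · exact Eventually.of_forall fun w => by
      simpa using hC w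

theorem pairing (hP : Atlas m P S R) {b : Fin m → ℂ → ℂ} (hb : ∀ i, Continuous (b i))
    (hbc : ∀ i, HasCompactSupport (b i)) {F : Fin m → ℂ → ℂ}
    (hF : ∀ j, IntegrableOn (F j) (aE P S j)) :
    ∑ j, ∫ w in aE P S j, conj (acomp S b j w) * F j w =
      ∑ i, ∫ w in P i, conj (b i w) * alift P S F i w := by
  have h1 : ∀ j, ∫ w in aE P S j, conj (acomp S b j w) * F j w =
      ∑ i, ∫ w in aE P S j ∩ S i j, conj (b i w) * F j w := by
    intro j
    have h2 : ∀ w, conj (acomp S b j w) * F j w =
        ∑ i, (S i j).indicator (fun w => conj (b i w) * F j w) w := by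
      intro w
      unfold acomp
      rw [map_sum, Finset.sum_mul]
      refine Finset.sum_congr rfl fun i _ => ?_
      by_cases h : w ∈ S i j
      · simp [indicator_of_mem h]
      · simp [indicator_of_notMem h]
    simp_rw [h2]
    rw [integral_finsetSum]
    · refine Finset.sum_congr rfl fun i _ => ?_
      rw [integral_indicator (hP.openS i j).measurableSet, Measure.restrict_restrict
        (hP.openS i j).measurableSet, inter_comm]
    · intro i _
      exact (integrableOn_mul_conj (hb i) (hbc i) (hF j)).indicator (hP.openS i j).measurableSet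
  have h3 : ∀ i, ∫ w in P i, conj (b i w) * alift P S F i w =
      ∑ j, ∫ w in aE P S j ∩ S i j, conj (b i w) * F j w := by
    intro i
    have hint : ∀ j, IntegrableOn (fun w => conj (b i w) * alift P S F i w)
        (aE P S j ∩ S i j) := by
      intro j
      refine IntegrableOn.congr_fun (f := fun w => conj (b i w) * F j w) ?_ ?_
        (measurableSet_piece hP i j)
      · exact (integrableOn_mul_conj (hb i) (hbc i) (hF j)).mono_set inter_subset_left
      · intro w hw
        simp only [alift_eq hP F hw]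
    rw [integral_piece hP i]
    · refine Finset.sum_congr rfl fun j _ => ?_
      refine setIntegral_congr_fun (measurableSet_piece hP i j) fun w hw => ?_
      simp only [alift_eq hP F hw]
    · rw [P_eq_iUnion hP i]
      exact integrableOn_finite_iUnion.2 hint
  simp_rw [h1, h3]
  rw [Finset.sum_comm]

/-- The Hilbert space of the atlas. -/
abbrev HH (P : Fin m → Set ℂ) (S : Fin m → Fin m → Set ℂ) : Type :=
  PiLp 2 (fun j : Fin m => Lp ℂ 2 (volume.restrict (aE P S j)))

def toH {F : Fin m → ℂ → ℂ} (hF : ∀ j, MemLp (F j) 2 (volume.restrict (aE P S j))) :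
    HH P S := WithLp.toLp 2 (fun j => (hF j).toLp (F j))

theorem inner_toH {F G : Fin m → ℂ → ℂ} (hF : ∀ j, MemLp (F j) 2 (volume.restrict (aE P S j)))
    (hG : ∀ j, MemLp (G j) 2 (volume.restrict (aE P S j))) :
    inner ℂ (toH hF) (toH hG) = ∑ j, ∫ w in aE P S j, conj (F j w) * G j w := by
  rw [PiLp.inner_apply]
  refine Finset.sum_congr rfl fun j _ => ?_
  rw [L2.inner_def]
  refine integral_congr_ae ?_
  filter_upwards [(hF j).coeFn_toLp, (hG j).coeFn_toLp] with w h1 h2
  simp only [toH]
  rw [h1, h2, RCLike.inner_apply, mul_comm]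

theorem inner_toH_right {F : Fin m → ℂ → ℂ}
    (hF : ∀ j, MemLp (F j) 2 (volume.restrict (aE P S j))) (x : HH P S) :
    inner ℂ (toH hF) x = ∑ j, ∫ w in aE P S j, conj (F j w) * (x j : ℂ → ℂ) w := by
  rw [PiLp.inner_apply]
  refine Finset.sum_congr rfl fun j _ => ?_
  rw [L2.inner_def]
  refine integral_congr_ae ?_
  filter_upwards [(hF j).coeFn_toLp] with w h1
  simp only [toH]
  rw [h1, RCLike.inner_apply, mul_comm]

theorem norm_sq_HH (x : HH P S) : ‖x‖ ^ 2 = ∑ j, ‖x j‖ ^ 2 := by
  rw [PiLp.norm_sq_eq_of_L2]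

end Pool.Helper51.Hart
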