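import Pool.Agent.Helper51.Hart.Atlas3
import Pool.Agent.Helper51.Hart.Stub

/-!
# The basic `L²` inequality on the atlas
-/

set_option autoImplicit false

noncomputable section

open Set Metric Complex MeasureTheory Filter
open scoped Topology ComplexConjugate

namespace Pool.Helper51.Hart

variable {m : ℕ} {P : Fin m → Set ℂ} {S : Fin m → Fin m → Set ℂ} {R : ℝ}

theorem memLp_acomp (hP : Atlas m P S R) {b : Fin m → ℂ → ℂ} (hb : ∀ i, Continuous (b i))
    (hbc : ∀ i, HasCompactSupport (b i)) (j : Fin m) :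
    MemLp (acomp S b j) 2 (volume.restrict (aE P S j)) := by
  have : acomp S b j = fun w => ∑ i, (S i j).indicator (b i) w := rfl
  rw [this]
  refine memLp_finsetSum _ fun i _ => ?_
  exact (((hb i).memLp_of_hasCompactSupport (hbc i)).restrict _).indicator
    (hP.openS i j).measurableSet

theorem IsTest.cont {a : Fin m → ℂ → ℂ} (ha : IsTest P a) (i : Fin m) : Continuous (a i) :=
  (ha i).1.continuous

theorem IsTest.c1 {a : Fin m → ℂ → ℂ} (ha : IsTest P a) (i : Fin m) : ContDiff ℝ 1 (a i) :=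
  (ha i).1.of_le (by exact_mod_cast le_top)

theorem IsTest.c2 {a : Fin m → ℂ → ℂ} (ha : IsTest P a) (i : Fin m) : ContDiff ℝ 2 (a i) :=
  (ha i).1.of_le (WithTop.coe_le_coe.2 le_top : ((2 : ℕ∞) : WithTop ℕ∞) ≤ _)

theorem IsTest.hc {a : Fin m → ℂ → ℂ} (ha : IsTest P a) (i : Fin m) : HasCompactSupport (a i) :=
  (ha i).2.1

theorem IsTest.ts {a : Fin m → ℂ → ℂ} (ha : IsTest P a) (i : Fin m) : tsupport (a i) ⊆ P i :=
  (ha i).2.2

theorem IsTest.hcb {a : Fin m → ℂ → ℂ} (ha : IsTest P a) (i : Fin m) :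
    HasCompactSupport (dbar (a i)) := (ha.hc i).of_isClosed_subset (isClosed_tsupport _)
      (dbar_tsupport _)

theorem IsTest.hch {a : Fin m → ℂ → ℂ} (ha : IsTest P a) (i : Fin m) :
    HasCompactSupport (dhol (a i)) := (ha.hc i).of_isClosed_subset (isClosed_tsupport _)
      (dhol_tsupport _)

def JJ (hP : Atlas m P S R) {a : Fin m → ℂ → ℂ} (ha : IsTest P a) : HH P S :=
  toH (fun j => memLp_acomp hP ha.cont ha.hc j)

def DD (hP : Atlas m P S R) {a : Fin m → ℂ → ℂ} (ha : IsTest P a) : HH P S :=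
  toH (fun j => memLp_acomp hP (fun i => dhol_continuous (ha.c1 i)) ha.hch j)

def BB (hP : Atlas m P S R) {a : Fin m → ℂ → ℂ} (ha : IsTest P a) : HH P S :=
  toH (fun j => memLp_acomp hP (fun i => dbar_continuous (ha.c1 i)) ha.hcb j)

/-- pairing of a glued compactly supported tuple against a compatible family -/
theorem inner_acomp (hP : Atlas m P S R) {b : Fin m → ℂ → ℂ} (hb : ∀ i, Continuous (b i))
    (hbc : ∀ i, HasCompactSupport (b i)) {F : Fin m → ℂ → ℂ}
    (hF : ∀ j, MemLp (F j) 2 (volume.restrict (aE P S j)))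
    (hc : ∀ i j, ∀ w ∈ S i j, F i w = F j w) :
    inner ℂ (toH (fun j => memLp_acomp hP hb hbc j)) (toH hF) =
      ∑ i, ∫ w in P i, conj (b i w) * F i w := by
  rw [inner_toH, pairing hP hb hbc (fun j => integrableOn_of_memLp hP (hF j))]
  refine Finset.sum_congr rfl fun i _ => ?_
  refine setIntegral_congr_fun (hP.openP i).measurableSet fun w hw => ?_
  simp only [alift_of_compat hP hc hw]

theorem acomp_c (hP : Atlas m P S R) (b : Fin m → ℂ → ℂ) :
    ∀ i j, ∀ w ∈ S i j, acomp S b i w = acomp S b j w := fun _ _ _ h => acomp_compat hP b h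

/-- replace the integral over the chart by the full integral -/
theorem setIntegral_full {s : Set ℂ} {b F : ℂ → ℂ} (hb : tsupport b ⊆ s) :
    ∫ w in s, conj (b w) * F w = ∫ w, conj (b w) * F w := by
  refine setIntegral_eq_integral_of_forall_compl_eq_zero fun w hw => ?_
  have : b w = 0 := image_eq_zero_of_notMem_tsupport fun h => hw (hb h)
  simp [this]

theorem memLp_mul (hP : Atlas m P S R) {F : Fin m → ℂ → ℂ}
    (hF : ∀ j, MemLp (F j) 2 (volume.restrict (aE P S j))) (j : Fin m) :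
    MemLp (fun w => w * F j w) 2 (volume.restrict (aE P S j)) := by
  refine (hF j).of_le_mul (c := R) ?_ ?_
  · exact (continuous_id.aestronglyMeasurable).mul (hF j).1
  · rw [ae_restrict_iff' (measurableSet_aE hP j)]
    refine Eventually.of_forall fun w hw => ?_
    rw [norm_mul]
    have : ‖w‖ < R := by simpa using hP.bdd j (aE_sub j hw)
    exact mul_le_mul_of_nonneg_right this.le (norm_nonneg _)

theorem norm_mul_le (hP : Atlas m P S R) {F : Fin m → ℂ → ℂ}
    (hF : ∀ j, MemLp (F j) 2 (volume.restrict (aE P S j))) :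
    ‖toH (memLp_mul hP hF)‖ ≤ R * ‖toH hF‖ := by
  have h : ∀ j, ‖(toH (memLp_mul hP hF) : HH P S) j‖ ≤ R * ‖(toH hF : HH P S) j‖ := by
    intro j
    refine Lp.norm_le_mul_norm_of_ae_le_mul (c := R) ?_
    have h1 := (memLp_mul hP hF j).coeFn_toLp
    have h2 := (hF j).coeFn_toLp
    have h3 : ∀ᵐ w ∂(volume.restrict (aE P S j)), w ∈ aE P S j := by
      rw [ae_restrict_iff' (measurableSet_aE hP j)]
      exact Eventually.of_forall fun w hw => hw
    filter_upwards [h1, h2, h3] with w h1 h2 h3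
    simp only [toH]
    rw [h1, h2, norm_mul]
    have : ‖w‖ < R := by simpa using hP.bdd j (aE_sub j h3)
    exact mul_le_mul_of_nonneg_right this.le (norm_nonneg _)
  have h2 : ‖toH (memLp_mul hP hF)‖ ^ 2 ≤ (R * ‖toH hF‖) ^ 2 := by
    rw [mul_pow, norm_sq_HH, norm_sq_HH, Finset.mul_sum]
    refine Finset.sum_le_sum fun j _ => ?_
    rw [← mul_pow]
    exact pow_le_pow_left₀ (norm_nonneg _) (h j) 2
  exact le_of_sq_le_sq h2 (mul_nonneg hP.Rpos.le (norm_nonneg _))

end Pool.Helper51.Hart
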