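import Pool.Agent.Helper51.Hart.Atlas4

/-!
# The basic `L²` inequality on the atlas, second part
-/

set_option autoImplicit false

noncomputable section

open Set Metric Complex MeasureTheory Filter
open scoped Topology ComplexConjugate

namespace Pool.Helper51.Hart

variable {m : ℕ} {P : Fin m → Set ℂ} {S : Fin m → Fin m → Set ℂ} {R : ℝ}

theorem acomp_contDiffOn (hP : Atlas m P S R) {a : Fin m → ℂ → ℂ} {n : WithTop ℕ∞}
    (ha : ∀ i, ContDiff ℝ n (a i)) (hs : ∀ i, tsupport (a i) ⊆ P i) (j : Fin m) :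
    ContDiffOn ℝ n (acomp S a j) (P j) :=
  fun _ hw => (acomp_contDiffAt hP ha hs hw).contDiffWithinAt

theorem inner_BB (hP : Atlas m P S R) {a : Fin m → ℂ → ℂ} (ha : IsTest P a) :
    inner ℂ (BB hP ha) (BB hP ha) =
      ∑ i, ∫ w, conj (dbar (a i) w) * dbar (acomp S a i) w := by
  unfold BB
  rw [inner_acomp hP (fun i => dbar_continuous (ha.c1 i)) ha.hcb _ (acomp_c hP _)]
  refine Finset.sum_congr rfl fun i _ => ?_
  rw [← setIntegral_full ((dbar_tsupport _).trans (ha.ts i))]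
  refine setIntegral_congr_fun (hP.openP i).measurableSet fun w hw => ?_
  simp only [acomp_dbar hP ha.c1 ha.ts hw]

theorem inner_DD (hP : Atlas m P S R) {a : Fin m → ℂ → ℂ} (ha : IsTest P a) :
    inner ℂ (DD hP ha) (DD hP ha) =
      ∑ i, ∫ w, conj (dhol (a i) w) * dhol (acomp S a i) w := by
  unfold DD
  rw [inner_acomp hP (fun i => dhol_continuous (ha.c1 i)) ha.hch _ (acomp_c hP _)]
  refine Finset.sum_congr rfl fun i _ => ?_
  rw [← setIntegral_full ((dhol_tsupport _).trans (ha.ts i))]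
  refine setIntegral_congr_fun (hP.openP i).measurableSet fun w hw => ?_
  simp only [acomp_dhol hP ha.c1 ha.ts hw]

theorem norm_BB (hP : Atlas m P S R) {a : Fin m → ℂ → ℂ} (ha : IsTest P a) :
    ‖BB hP ha‖ = ‖DD hP ha‖ := by
  have h : inner ℂ (BB hP ha) (BB hP ha) = inner ℂ (DD hP ha) (DD hP ha) := by
    rw [inner_BB, inner_DD]
    refine Finset.sum_congr rfl fun i _ => ?_
    exact (energy (hP.openP i) (ha.c2 i) (ha.hc i) (ha.ts i)
      (acomp_contDiffOn hP ha.c2 ha.ts i)).symm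
  rw [inner_self_eq_norm_sq_to_K, inner_self_eq_norm_sq_to_K] at h
  have h2 : ‖BB hP ha‖ ^ 2 = ‖DD hP ha‖ ^ 2 := by exact_mod_cast h
  exact (pow_left_inj₀ (norm_nonneg _) (norm_nonneg _) two_ne_zero).1 h2

theorem key_ineq (hP : Atlas m P S R) {a : Fin m → ℂ → ℂ} (ha : IsTest P a) :
    ‖JJ hP ha‖ ≤ R * ‖DD hP ha‖ := by
  have hJm := fun j => memLp_acomp hP ha.cont ha.hc j
  have hDm := fun j => memLp_acomp hP (fun i => dhol_continuous (ha.c1 i)) ha.hch j
  have e1 : inner ℂ (JJ hP ha) (JJ hP ha) = ∑ i, ∫ w, conj (a i w) * acomp S a i w := by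
    unfold JJ
    rw [inner_acomp hP ha.cont ha.hc _ (acomp_c hP _)]
    exact Finset.sum_congr rfl fun i _ => setIntegral_full (ha.ts i)
  have e2 : inner ℂ (BB hP ha) (toH (memLp_mul hP hJm)) =
      ∑ i, ∫ w, conj (dbar (a i) w) * (w * acomp S a i w) := by
    unfold BB
    rw [inner_acomp hP (fun i => dbar_continuous (ha.c1 i)) ha.hcb _ (fun i j w hw => by simp only [acomp_compat hP a hw])]
    exact Finset.sum_congr rfl fun i _ => setIntegral_full ((dbar_tsupport _).trans (ha.ts i))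
  have e3 : inner ℂ (JJ hP ha) (toH (memLp_mul hP hDm)) =
      ∑ i, ∫ w, conj (a i w) * (w * dhol (acomp S a i) w) := by
    unfold JJ
    rw [inner_acomp hP ha.cont ha.hc _ (fun i j w hw => by
      simp only [acomp_compat hP (fun i => dhol (a i)) hw])]
    refine Finset.sum_congr rfl fun i _ => ?_
    rw [← setIntegral_full (ha.ts i)]
    refine setIntegral_congr_fun (hP.openP i).measurableSet fun w hw => ?_
    simp only [acomp_dhol hP ha.c1 ha.ts hw]
  have e4 : 2 * inner ℂ (JJ hP ha) (JJ hP ha) =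
      -(inner ℂ (BB hP ha) (toH (memLp_mul hP hJm)) +
        inner ℂ (JJ hP ha) (toH (memLp_mul hP hDm))) := by
    rw [e1, e2, e3, Finset.mul_sum, ← Finset.sum_add_distrib, ← Finset.sum_neg_distrib]
    refine Finset.sum_congr rfl fun i _ => ?_
    exact poinc (hP.openP i) (ha.c1 i) (ha.hc i) (ha.ts i) (acomp_contDiffOn hP ha.c1 ha.ts i)
  have e5 : 2 * ‖JJ hP ha‖ ^ 2 ≤ 2 * R * ‖JJ hP ha‖ * ‖DD hP ha‖ := by
    have h1 : ‖(2 : ℂ) * inner ℂ (JJ hP ha) (JJ hP ha)‖ = 2 * ‖JJ hP ha‖ ^ 2 := by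
      rw [inner_self_eq_norm_sq_to_K, norm_mul]
      simp
    have h2 := norm_mul_le hP hJm
    have h3 := norm_mul_le hP hDm
    have h4 : ‖inner ℂ (BB hP ha) (toH (memLp_mul hP hJm))‖ ≤
        ‖DD hP ha‖ * (R * ‖JJ hP ha‖) := by
      refine (norm_inner_le_norm _ _).trans ?_
      rw [norm_BB]
      exact mul_le_mul_of_nonneg_left h2 (norm_nonneg _)
    have h5 : ‖inner ℂ (JJ hP ha) (toH (memLp_mul hP hDm))‖ ≤
        ‖JJ hP ha‖ * (R * ‖DD hP ha‖) := by
      refine (norm_inner_le_norm _ _).trans ?_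
      exact mul_le_mul_of_nonneg_left h3 (norm_nonneg _)
    rw [← h1, e4, norm_neg]
    refine (norm_add_le _ _).trans ?_
    nlinarith
  rcases (norm_nonneg (JJ hP ha)).eq_or_lt with h0 | hpos
  · rw [← h0]
    exact mul_nonneg hP.Rpos.le (norm_nonneg _)
  · nlinarith

end Pool.Helper51.Hart
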