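import Pool.Agent.Helper51.Hart.Atlas5

/-!
# The range of the adjoint operator, the bound of the projection
-/

set_option autoImplicit false

noncomputable section

open Set Metric Complex MeasureTheory Filter
open scoped Topology ComplexConjugate

namespace Pool.Helper51.Hart

variable {m : ℕ} {P : Fin m → Set ℂ} {S : Fin m → Fin m → Set ℂ} {R : ℝ}

theorem IsTest.add {a b : Fin m → ℂ → ℂ} (ha : IsTest P a) (hb : IsTest P b) :
    IsTest P (fun i w => a i w + b i w) := fun i =>
  ⟨(ha i).1.add (hb i).1, (ha.hc i).add (hb.hc i),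
    (closure_mono (t := Function.support (a i) ∪ Function.support (b i)) (fun w hw => by
      by_contra h
      simp only [mem_union, Function.mem_support, ne_eq, not_or, not_not] at h
      exact hw (by simp [h.1, h.2]))).trans (by
      rw [closure_union]; exact union_subset (ha.ts i) (hb.ts i))⟩

theorem IsTest.smul {a : Fin m → ℂ → ℂ} (ha : IsTest P a) (c : ℂ) :
    IsTest P (fun i w => c * a i w) := fun i =>
  ⟨contDiff_const.mul (ha i).1, (ha.hc i).mul_left,
    (closure_mono (Function.support_mul_subset_right _ _)).trans (ha.ts i)⟩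

theorem isTest_zero : IsTest P (fun _ _ => (0 : ℂ)) := fun i =>
  ⟨contDiff_const, HasCompactSupport.zero, by
    have : tsupport (fun _ : ℂ => (0 : ℂ)) = ∅ := by simp [tsupport]
    rw [this]; exact empty_subset _⟩

theorem dhol_add {a b : ℂ → ℂ} (ha : ContDiff ℝ 1 a) (hb : ContDiff ℝ 1 b) (w : ℂ) :
    dhol (fun w => a w + b w) w = dhol a w + dhol b w := by
  have h : fderiv ℝ (fun w => a w + b w) w = fderiv ℝ a w + fderiv ℝ b w :=
    fderiv_fun_add (ha.differentiable one_ne_zero w) (hb.differentiable one_ne_zero w)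
  simp only [dhol, h, add_apply]
  ring

theorem dhol_smul {a : ℂ → ℂ} (ha : ContDiff ℝ 1 a) (c w : ℂ) :
    dhol (fun w => c * a w) w = c * dhol a w := by
  have h : fderiv ℝ (fun w => c * a w) w = c • fderiv ℝ a w :=
    fderiv_const_mul (ha.differentiable one_ne_zero w) c
  simp only [dhol, h]
  simp only [FunLike.coe_smul, Pi.smul_apply, smul_eq_mul]
  ring

theorem acomp_add (a b : Fin m → ℂ → ℂ) (j : Fin m) (w : ℂ) :
    acomp S (fun i w => a i w + b i w) j w = acomp S a j w + acomp S b j w := by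
  unfold acomp
  rw [← Finset.sum_add_distrib]
  refine Finset.sum_congr rfl fun i _ => ?_
  by_cases h : w ∈ S i j
  · simp [indicator_of_mem h]
  · simp [indicator_of_notMem h]

theorem acomp_smul (a : Fin m → ℂ → ℂ) (c : ℂ) (j : Fin m) (w : ℂ) :
    acomp S (fun i w => c * a i w) j w = c * acomp S a j w := by
  unfold acomp
  rw [Finset.mul_sum]
  refine Finset.sum_congr rfl fun i _ => ?_
  by_cases h : w ∈ S i j
  · simp [indicator_of_mem h]
  · simp [indicator_of_notMem h]

theorem toH_congr {F G : Fin m → ℂ → ℂ} (hF : ∀ j, MemLp (F j) 2 (volume.restrict (aE P S j)))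
    (hG : ∀ j, MemLp (G j) 2 (volume.restrict (aE P S j))) (h : ∀ j w, F j w = G j w) :
    (toH hF : HH P S) = toH hG := by
  have : F = G := funext fun j => funext fun w => h j w
  subst this; rfl

theorem toH_add {F G : Fin m → ℂ → ℂ} (hF : ∀ j, MemLp (F j) 2 (volume.restrict (aE P S j)))
    (hG : ∀ j, MemLp (G j) 2 (volume.restrict (aE P S j))) :
    (toH hF : HH P S) + toH hG = toH (fun j => (hF j).add (hG j)) := rfl

theorem toH_smul {F : Fin m → ℂ → ℂ} (hF : ∀ j, MemLp (F j) 2 (volume.restrict (aE P S j)))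
    (c : ℂ) : c • (toH hF : HH P S) = toH (fun j => (hF j).const_smul c) := rfl

/-- the range of the adjoint operator -/
def EE (hP : Atlas m P S R) : Submodule ℂ (HH P S) where
  carrier := {x | ∃ (a : Fin m → ℂ → ℂ) (ha : IsTest P a), x = DD hP ha}
  zero_mem' := by
    refine ⟨_, isTest_zero, ?_⟩
    have h0 : (0 : HH P S) = (0 : ℂ) • DD hP (isTest_zero : IsTest P fun _ _ => (0 : ℂ)) := by simp
    rw [h0]
    unfold DD
    rw [toH_smul]
    refine toH_congr _ _ fun j w => ?_
    have : dhol (fun _ : ℂ => (0 : ℂ)) = fun _ => 0 := by funext w; simp [dhol]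
    simp [acomp, this]
  add_mem' := by
    rintro x y ⟨a, ha, rfl⟩ ⟨b, hb, rfl⟩
    refine ⟨_, ha.add hb, ?_⟩
    unfold DD
    rw [toH_add]
    refine toH_congr _ _ fun j w => ?_
    have : (fun i => dhol (fun w => a i w + b i w)) =
        fun i w => dhol (a i) w + dhol (b i) w := by
      funext i w
      exact dhol_add (ha.c1 i) (hb.c1 i) w
    rw [this, acomp_add]; rfl
  smul_mem' := by
    rintro c x ⟨a, ha, rfl⟩
    refine ⟨_, ha.smul c, ?_⟩
    unfold DD
    rw [toH_smul]
    refine toH_congr _ _ fun j w => ?_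
    have : (fun i => dhol (fun w => c * a i w)) = fun i w => c * dhol (a i) w := by
      funext i w
      exact dhol_smul (ha.c1 i) c w
    rw [this, acomp_smul]; rfl

/-- abstract: a functional bounded on a subspace bounds the component in its closure -/
theorem proj_bound {H : Type*} [NormedAddCommGroup H] [InnerProductSpace ℂ H] [CompleteSpace H]
    (E : Submodule ℂ H) (g : H) {κ : ℝ} (hκ : 0 ≤ κ) (h : ∀ e ∈ E, ‖inner ℂ e g‖ ≤ κ * ‖e‖) :
    ∃ y z : H, g = y + z ∧ (∀ e ∈ E, inner ℂ e z = 0) ∧ ‖y‖ ≤ κ := by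
  obtain ⟨y, hy, z, hz, hg⟩ := E.topologicalClosure.exists_add_mem_mem_orthogonal g
  refine ⟨y, z, hg, fun e he => ?_, ?_⟩
  · exact hz e (E.le_topologicalClosure he)
  · have h1 : ∀ e ∈ E.topologicalClosure, ‖inner ℂ e g‖ ≤ κ * ‖e‖ := by
      intro e he
      have hcl : IsClosed {e : H | ‖inner ℂ e g‖ ≤ κ * ‖e‖} :=
        isClosed_le ((continuous_id.inner continuous_const).norm)
          (continuous_const.mul continuous_norm)
      exact closure_minimal (fun e he => h e he) hcl he
    have h2 := h1 y hy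
    rw [hg, inner_add_right, hz y hy, add_zero, inner_self_eq_norm_sq_to_K] at h2
    have h3 : ‖y‖ ^ 2 ≤ κ * ‖y‖ := by simpa using h2
    rcases (norm_nonneg y).eq_or_lt with h0 | hpos
    · rw [← h0]; exact hκ
    · nlinarith

end Pool.Helper51.Hart
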