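import Pool.Agent.Helper51.Hart.Atlas6

/-!
# HT-29: `L²` approximation by holomorphic functions on a finite étale atlas
-/

set_option autoImplicit false

noncomputable section

open Set Metric Complex MeasureTheory Filter
open scoped Topology ComplexConjugate

namespace Pool.Helper51.Hart

variable {m : ℕ} {P : Fin m → Set ℂ} {S : Fin m → Fin m → Set ℂ} {R : ℝ}

theorem memLp_bdd (hP : Atlas m P S R) {F : Fin m → ℂ → ℂ}
    (hc : ∀ j, ContinuousOn (F j) (P j)) {B : ℝ} (hB : ∀ i, ∀ w ∈ P i, ‖F i w‖ ≤ B) (j : Fin m) :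
    MemLp (F j) 2 (volume.restrict (aE P S j)) := by
  have := isFinite_aE hP j
  refine MemLp.of_bound (C := B) ?_ ?_
  · exact ((hc j).mono (aE_sub j)).aestronglyMeasurable (measurableSet_aE hP j)
  · rw [ae_restrict_iff' (measurableSet_aE hP j)]
    exact Eventually.of_forall fun w hw => hB j w (aE_sub j hw)

theorem vol_real_le (hP : Atlas m P S R) (j : Fin m) :
    volume.real (aE P S j) ≤ Real.pi * R ^ 2 := by
  have h1 : volume.real (aE P S j) ≤ volume.real (ball (0 : ℂ) R) :=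
    measureReal_mono ((aE_sub j).trans (hP.bdd j)) measure_ball_lt_top.ne
  refine h1.trans (le_of_eq ?_)
  rw [Measure.real, Complex.volume_ball]
  rw [ENNReal.toReal_mul, ENNReal.toReal_pow, ENNReal.toReal_ofReal hP.Rpos.le]
  simp [mul_comm]

theorem norm_toH_le (hP : Atlas m P S R) {F : Fin m → ℂ → ℂ}
    (hF : ∀ j, MemLp (F j) 2 (volume.restrict (aE P S j))) {M : ℝ}
    (hM : ∀ i, ∀ w ∈ P i, ‖F i w‖ ≤ M) :
    ‖(toH hF : HH P S)‖ ^ 2 ≤ m * (Real.pi * R ^ 2 * M ^ 2) := by
  have h1 : ‖(toH hF : HH P S)‖ ^ 2 = ‖inner ℂ (toH hF : HH P S) (toH hF)‖ := by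
    rw [inner_self_eq_norm_sq_to_K]; simp
  rw [h1, inner_toH]
  refine (norm_sum_le _ _).trans ?_
  have h2 : ∀ j ∈ (Finset.univ : Finset (Fin m)),
      ‖∫ w in aE P S j, conj (F j w) * F j w‖ ≤ Real.pi * R ^ 2 * M ^ 2 := by
    intro j _
    refine (norm_setIntegral_le_of_norm_le_const (C := M ^ 2) (volume_aE_lt_top hP j) ?_).trans ?_
    · intro w hw
      have := hM j w (aE_sub j hw)
      rw [norm_mul, RCLike.norm_conj, sq]
      exact mul_le_mul this this (norm_nonneg _) ((norm_nonneg _).trans this)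
    · rw [mul_comm]
      exact mul_le_mul_of_nonneg_right (vol_real_le hP j) (sq_nonneg _)
  refine (Finset.sum_le_sum h2).trans (le_of_eq ?_)
  simp

theorem h51_dbar_conj {a : ℂ → ℂ} (ha : ContDiff ℝ 1 a) (w : ℂ) :
    dbar (fun w => conj (a w)) w = conj (dhol a w) := by
  have hd : HasFDerivAt a (fderiv ℝ a w) w := (ha.differentiable one_ne_zero w).hasFDerivAt
  have h : HasFDerivAt (fun w => conj (a w))
      ((conjCLE : ℂ →L[ℝ] ℂ).comp (fderiv ℝ a w)) w :=
    (conjCLE : ℂ →L[ℝ] ℂ).hasFDerivAt.comp w hd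
  unfold dbar dhol
  rw [h.fderiv]
  simp only [ContinuousLinearMap.comp_apply, map_sub, map_mul, conj_I]
  simp

theorem h51_dhol_conj {a : ℂ → ℂ} (ha : ContDiff ℝ 1 a) (w : ℂ) :
    dhol (fun w => conj (a w)) w = conj (dbar a w) := by
  have hd : HasFDerivAt a (fderiv ℝ a w) w := (ha.differentiable one_ne_zero w).hasFDerivAt
  have h : HasFDerivAt (fun w => conj (a w))
      ((conjCLE : ℂ →L[ℝ] ℂ).comp (fderiv ℝ a w)) w :=
    (conjCLE : ℂ →L[ℝ] ℂ).hasFDerivAt.comp w hd
  unfold dbar dhol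
  rw [h.fderiv]
  simp only [ContinuousLinearMap.comp_apply, map_add, map_mul, conj_I]
  simp [sub_eq_add_neg]

theorem conj_test {s : Set ℂ} {a : ℂ → ℂ} (h1 : ContDiff ℝ ((⊤ : ℕ∞) : WithTop ℕ∞) a)
    (h2 : HasCompactSupport a) (h3 : tsupport a ⊆ s) :
    ContDiff ℝ ((⊤ : ℕ∞) : WithTop ℕ∞) (fun w => conj (a w)) ∧
      HasCompactSupport (fun w => conj (a w)) ∧ tsupport (fun w => conj (a w)) ⊆ s := by
  have hts : tsupport (fun w => conj (a w)) = tsupport a := by
    unfold tsupport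
    congr 1
    ext w
    simp [Function.mem_support]
  refine ⟨(conjCLE : ℂ →L[ℝ] ℂ).contDiff.comp h1, ?_, by rw [hts]; exact h3⟩
  unfold HasCompactSupport
  rw [hts]; exact h2

theorem atlas_dbar (hP : Atlas m P S R) (G : Fin m → ℂ → ℂ)
    (hG : ∀ i, ContDiffOn ℝ 1 (G i) (P i))
    (hc : ∀ i j, ∀ w ∈ S i j, G i w = G j w) (B M : ℝ) (hB : ∀ i, ∀ w ∈ P i, ‖G i w‖ ≤ B)
    (hM : ∀ i, ∀ w ∈ P i, ‖dbar (G i) w‖ ≤ M) :
    ∃ H : Fin m → ℂ → ℂ, (∀ i, DifferentiableOn ℂ (H i) (P i)) ∧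
      (∀ i j, ∀ w ∈ S i j, H i w = H j w) ∧
      ∀ i, ∫⁻ w in P i, ENNReal.ofReal (‖G i w - H i w‖ ^ 2) ≤
        ENNReal.ofReal (4 * Real.pi * m * R ^ 4 * M ^ 2) := by
  -- the element `G` and its `dbar`
  have hGm := memLp_bdd hP (fun j => (hG j).continuousOn) hB
  have hdc : ∀ j, ContinuousOn (dbar (G j)) (P j) := by
    intro j
    have h := (hG j).continuousOn_fderiv_of_isOpen (hP.openP j) le_rfl
    unfold dbar
    exact (h.clm_apply continuousOn_const).add (continuousOn_const.mul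
      (h.clm_apply continuousOn_const))
  have hdm := memLp_bdd hP hdc hM
  have hdcomp : ∀ i j, ∀ w ∈ S i j, dbar (G i) w = dbar (G j) w := by
    intro i j w hw
    have : G i =ᶠ[𝓝 w] G j := by
      filter_upwards [(hP.openS i j).mem_nhds hw] with w' hw' using hc i j w' hw'
    simp only [dbar, this.fderiv_eq]
  set κ : ℝ := R * ‖(toH hdm : HH P S)‖ with hκ
  have hκ0 : 0 ≤ κ := mul_nonneg hP.Rpos.le (norm_nonneg _)
  have hbound : ∀ e ∈ EE hP, ‖inner ℂ e (toH hGm : HH P S)‖ ≤ κ * ‖e‖ := by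
    rintro e ⟨a, ha, rfl⟩
    have h1 : inner ℂ (DD hP ha) (toH hGm : HH P S) =
        -inner ℂ (JJ hP ha) (toH hdm : HH P S) := by
      unfold DD JJ
      rw [inner_acomp hP (fun i => dhol_continuous (ha.c1 i)) ha.hch hGm hc,
        inner_acomp hP ha.cont ha.hc hdm hdcomp, ← Finset.sum_neg_distrib]
      refine Finset.sum_congr rfl fun i _ => ?_
      rw [setIntegral_full ((dhol_tsupport _).trans (ha.ts i)), setIntegral_full (ha.ts i)]
      obtain ⟨c1, c2, c3⟩ := conj_test (ha i).1 (ha.hc i) (ha.ts i)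
      have := ibp_bar (hP.openP i) (c1.of_le (by exact_mod_cast le_top)) c2 c3 (hG i)
      rw [this, neg_neg]
      refine integral_congr_ae (Eventually.of_forall fun w => ?_)
      simp only [h51_dbar_conj (ha.c1 i)]
    rw [h1, norm_neg]
    refine (norm_inner_le_norm _ _).trans ?_
    have h2 := key_ineq hP ha
    calc ‖JJ hP ha‖ * ‖(toH hdm : HH P S)‖ ≤ (R * ‖DD hP ha‖) * ‖(toH hdm : HH P S)‖ :=
          mul_le_mul_of_nonneg_right h2 (norm_nonneg _)
      _ = κ * ‖DD hP ha‖ := by rw [hκ]; ring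
  obtain ⟨y, z, hyz, hz, hy⟩ := proj_bound (EE hP) (toH hGm) hκ0 hbound
  -- the family `z`
  have hzm : ∀ j, MemLp ((z j : ℂ → ℂ)) 2 (volume.restrict (aE P S j)) := fun j => Lp.memLp (z j)
  have hzi : ∀ j, IntegrableOn ((z j : ℂ → ℂ)) (aE P S j) := fun j =>
    integrableOn_of_memLp hP (hzm j)
  let Z : Fin m → ℂ → ℂ := fun j => (z j : ℂ → ℂ)
  have hlift : ∀ i, IntegrableOn (alift P S Z i) (P i) := by
    intro i
    rw [P_eq_iUnion hP i]
    refine integrableOn_finite_iUnion.2 fun j => ?_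
    refine IntegrableOn.congr_fun (f := Z j) ((hzi j).mono_set inter_subset_left) ?_
      (measurableSet_piece hP i j)
    intro w hw
    exact (alift_eq hP Z hw).symm
  have hweak : ∀ i, ∀ b : ℂ → ℂ, ContDiff ℝ ((⊤ : ℕ∞) : WithTop ℕ∞) b → HasCompactSupport b →
      tsupport b ⊆ P i → ∫ w, alift P S Z i w * dbar b w = 0 := by
    intro i b hb1 hb2 hb3
    obtain ⟨c1, c2, c3⟩ := conj_test hb1 hb2 hb3
    classical
    let a : Fin m → ℂ → ℂ := fun l => if l = i then (fun w => conj (b w)) else fun _ => 0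
    have ha : IsTest P a := by
      intro l
      by_cases h : l = i
      · subst h
        simp only [a, if_true]
        exact ⟨c1, c2, c3⟩
      · simp only [a, if_neg h]
        exact isTest_zero l
    have h1 := hz (DD hP ha) ⟨a, ha, rfl⟩
    unfold DD at h1
    rw [inner_toH_right, pairing hP (fun i => dhol_continuous (ha.c1 i)) ha.hch hzi] at h1
    rw [Finset.sum_eq_single i] at h1
    · have hai : a i = fun w => conj (b w) := by simp [a]
      have h2 : ∀ w, conj (dhol (a i) w) = dbar b w := by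
        intro w
        rw [hai, h51_dhol_conj (hb1.of_le (by exact_mod_cast le_top))]
        simp
      have h3 : ∫ w in P i, conj (dhol (a i) w) * alift P S Z i w =
          ∫ w, alift P S Z i w * dbar b w := by
        rw [setIntegral_full ((dhol_tsupport _).trans (ha.ts i))]
        refine integral_congr_ae (Eventually.of_forall fun w => ?_)
        simp only [h2]; ring
      rw [← h3]; exact h1
    · intro l _ hl
      have hal : a l = fun _ => 0 := by simp [a, hl]
      have : dhol (a l) = fun _ => 0 := by rw [hal]; funext w; simp [dhol]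
      simp [this]
    · simp
  choose H hH1 hH2 using fun i => weyl (hP.openP i) (hlift i) (hweak i)
  refine ⟨H, hH1, ?_, ?_⟩
  · intro i j
    have hae : H i =ᵐ[volume.restrict (S i j)] H j := by
      have h1 := ae_restrict_of_ae_restrict_of_subset (fun w hw => hP.sub_left hw) (hH2 i)
        (s := S i j)
      have h2 := ae_restrict_of_ae_restrict_of_subset (fun w hw => hP.sub_right hw) (hH2 j)
        (s := S i j)
      have h3 : ∀ᵐ w ∂(volume.restrict (S i j)), w ∈ S i j := by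
        rw [ae_restrict_iff' (hP.openS i j).measurableSet]
        exact Eventually.of_forall fun w hw => hw
      filter_upwards [h1, h2, h3] with w h1 h2 h3
      rw [← h1, ← h2, alift_compat hP Z h3]
    exact Measure.eqOn_open_of_ae_eq hae (hP.openS i j)
      ((hH1 i).continuousOn.mono fun w hw => hP.sub_left hw)
      ((hH1 j).continuousOn.mono fun w hw => hP.sub_right hw)
  · intro i
    have e1 : ∫⁻ w in P i, ENNReal.ofReal (‖G i w - H i w‖ ^ 2) =
        ∫⁻ w in P i, ENNReal.ofReal (‖G i w - alift P S Z i w‖ ^ 2) := by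
      refine lintegral_congr_ae ?_
      filter_upwards [hH2 i] with w hw
      rw [hw]
    rw [e1, lintegral_piece hP i]
    have e2 : ∀ j, ∫⁻ w in aE P S j ∩ S i j, ENNReal.ofReal (‖G i w - alift P S Z i w‖ ^ 2) ≤
        ENNReal.ofReal (‖y j‖ ^ 2) := by
      intro j
      have e3 : ∫⁻ w in aE P S j ∩ S i j, ENNReal.ofReal (‖G i w - alift P S Z i w‖ ^ 2) =
          ∫⁻ w in aE P S j ∩ S i j, ENNReal.ofReal (‖G j w - Z j w‖ ^ 2) := by
        refine setLIntegral_congr_fun (measurableSet_piece hP i j) fun w hw => ?_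
        rw [alift_eq hP Z hw, hc i j w hw.2]
      rw [e3]
      have e4 : ∫⁻ w in aE P S j ∩ S i j, ENNReal.ofReal (‖G j w - Z j w‖ ^ 2) ≤
          ∫⁻ w in aE P S j, ENNReal.ofReal (‖G j w - Z j w‖ ^ 2) :=
        lintegral_mono_set inter_subset_left
      refine e4.trans ?_
      have hy2 : y j = (hGm j).toLp (G j) - z j := by
        have : y = toH hGm - z := by rw [hyz]; abel
        rw [this]; rfl
      have e5 : ∫⁻ w in aE P S j, ENNReal.ofReal (‖G j w - Z j w‖ ^ 2) =
          ∫⁻ w in aE P S j, ‖(y j : ℂ → ℂ) w‖ₑ ^ 2 := by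
        refine lintegral_congr_ae ?_
        rw [hy2]
        filter_upwards [Lp.coeFn_sub ((hGm j).toLp (G j)) (z j), (hGm j).coeFn_toLp] with w h1 h2
        rw [h1, Pi.sub_apply, h2, ENNReal.ofReal_pow (norm_nonneg _), ofReal_norm]
      rw [e5]
      have e6 : ∫⁻ w in aE P S j, ‖(y j : ℂ → ℂ) w‖ₑ ^ 2 = ‖y j‖ₑ ^ 2 := by
        rw [Lp.enorm_def, eLpNorm_eq_lintegral_rpow_enorm_toReal (by norm_num) (by norm_num)]
        rw [← ENNReal.rpow_natCast, ← ENNReal.rpow_mul]
        simp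
      rw [e6, ENNReal.ofReal_pow (norm_nonneg _), ofReal_norm]
    refine (Finset.sum_le_sum fun j _ => e2 j).trans ?_
    rw [← ENNReal.ofReal_sum_of_nonneg fun j _ => sq_nonneg _]
    refine ENNReal.ofReal_le_ofReal ?_
    rw [← norm_sq_HH]
    have e7 : ‖y‖ ^ 2 ≤ κ ^ 2 := pow_le_pow_left₀ (norm_nonneg _) hy 2
    refine e7.trans ?_
    rw [hκ, mul_pow]
    have e8 := norm_toH_le hP hdm hM
    have hR := hP.Rpos
    calc R ^ 2 * ‖(toH hdm : HH P S)‖ ^ 2 ≤ R ^ 2 * (m * (Real.pi * R ^ 2 * M ^ 2)) :=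
          mul_le_mul_of_nonneg_left e8 (sq_nonneg _)
      _ ≤ 4 * Real.pi * m * R ^ 4 * M ^ 2 := by
          have : 0 ≤ Real.pi * m * R ^ 4 * M ^ 2 := by positivity
          nlinarith

end Pool.Helper51.Hart
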