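import Pool.Agent.Helper10.Hart.Slope
import Pool.Agent.Helper14.Hart.BoxI
import Pool.Agent.Helper14.Hart.BoxTay
import Pool.Agent.Helper16.Hart.CoverAtlas
import Pool.Agent.Helper16.Hart.KontP
import Pool.Agent.Helper19.Hart.Fourier
import Pool.Agent.Helper19.Hart.JetOfCR
import Pool.Agent.Helper20.Hart.CRCalc
import Pool.Agent.Helper20.Hart.NoCritical
import Pool.Agent.Helper28.Hart.AvgVanish
import Pool.Agent.Helper32.Hart.LocalApprox
import Pool.Agent.Helper39.Hart.Cover
import Pool.Agent.Helper39.Hart.MaxInt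
import Pool.Agent.Helper58.Hart.BoxII
import Pool.Agent.Helper60.Hart.HalfPlane
import Pool.Agent.Helper62.Hart.Glue
import Pool.Agent.Helper62.Hart.LocalConn
import Pool.Agent.Helper69.Hart.PushOut
import Pool.Agent.Helper78.Hart.HFactsProof
import Pool.Agent.Helper78.Hart.Kont1
import Pool.Agent.Helper78.Hart.Kont2
import Pool.Agent.Helper9.Hart.MeanSq
import Pool.Agent.Helper90.Hart.TrigApprox
import Pool.Agent.Helper95.Hart.Compare
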