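import Pool.Agent.Helper51.Hart.AtlasDbar
import Pool.Agent.Helper51.Hart.Stub2

/-!
# The core approximation theorem on the slice
-/

set_option autoImplicit false

noncomputable section

open Set Metric Complex MeasureTheory Filter
open scoped Topology ComplexConjugate

namespace Pool.Helper51.Hart

variable {σ : ℝ × ℂ → ℝ} {m : ℕ} {A0 A1 A2 : ℝ → ℂ → ℂ}

theorem InN_of_close (X : Cover σ m) {g : ℝ} (hg : Gap X g) {i : Fin m} {r r' : ℝ} {w' : ℂ}
    (h0 : 0 ≤ r') (hs : σ (r', w') ≤ 0) (hw : ‖w' - X.c i‖ ≤ X.δ i) (hr : |r - r'| < g) :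
    X.InN i r ↔ X.InN i r' := by
  obtain ⟨h1, h2⟩ := hg.2 i r' w' h0 hs hw
  unfold Cover.InN
  rw [abs_lt] at hr
  constructor
  · rintro ⟨h3, h4⟩
    constructor
    · by_contra h
      have : |r' - X.a i| = X.a i - r' := by
        rw [abs_sub_comm, abs_of_nonneg (by linarith)]
      rw [this] at h1
      linarith
    · by_contra h
      have : |r' - X.b i| = r' - X.b i := abs_of_nonneg (by linarith)
      rw [this] at h2
      linarith
  · rintro ⟨h3, h4⟩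
    constructor
    · have : |r' - X.a i| = r' - X.a i := abs_of_nonneg (by linarith)
      rw [this] at h1
      linarith
    · have : |r' - X.b i| = X.b i - r' := by
        rw [abs_sub_comm, abs_of_nonneg (by linarith)]
      rw [this] at h2
      linarith

theorem near_isOpen (l r : ℝ) : IsOpen {w : ℂ | Near σ l r w} := by
  have : {w : ℂ | Near σ l r w} = ⋃ (p : ℝ × ℂ) (_ : 0 ≤ r ∧ 0 ≤ p.1 ∧ σ p ≤ 0 ∧ |r - p.1| < l),
      ball p.2 l := by
    ext w
    simp only [Near, mem_ofPred_eq, mem_iUnion, mem_ball, dist_eq_norm]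
    constructor
    · rintro ⟨h0, r', w', h1, h2, h3, h4⟩
      exact ⟨(r', w'), ⟨h0, h1, h2, h3⟩, h4⟩
    · rintro ⟨⟨r', w'⟩, ⟨h0, h1, h2, h3⟩, h4⟩
      exact ⟨h0, r', w', h1, h2, h3, h4⟩
  rw [this]
  exact isOpen_iUnion fun p => isOpen_iUnion fun _ => isOpen_ball

/-- a lower bound for the finitely many box sizes -/
theorem exists_delta_lb (X : Cover σ m) : ∃ d : ℝ, 0 < d ∧ ∀ i, d ≤ X.δ i := by
  rcases Nat.eq_zero_or_pos m with h | h
  · subst h
    exact ⟨1, one_pos, fun i => i.elim0⟩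
  · have : Nonempty (Fin m) := ⟨⟨0, h⟩⟩
    obtain ⟨i0, hi0⟩ := Finite.exists_min X.δ
    exact ⟨X.δ i0, (X.box i0).hδ, hi0⟩

theorem tpoly_self (r : ℝ) (w : ℂ) : tpoly A0 A1 A2 r w w = A0 r w := by
  simp [tpoly]

theorem tpoly_diff (r : ℝ) (w : ℂ) : Differentiable ℂ (fun w' => tpoly A0 A1 A2 r w w') := by
  unfold tpoly
  fun_prop

/-- the sup estimate from the `L²` estimate -/
theorem sup_est {w : ℂ} {l κ K : ℝ} (hl : 0 < l) (hK : 0 ≤ K) {G H T : ℂ → ℂ}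
    (hH : DifferentiableOn ℂ H (ball w l)) (hT : DifferentiableOn ℂ T (ball w l))
    (hGT : ∀ z ∈ ball w l, ‖G z - T z‖ ≤ κ)
    (h : ∫⁻ z in ball w l, ENNReal.ofReal (‖G z - H z‖ ^ 2) ≤ ENNReal.ofReal K) :
    ‖H w - T w‖ ^ 2 * l ^ 2 ≤ 8 * K + 8 * Real.pi * κ ^ 2 * l ^ 2 := by
  have h1 : ∫⁻ z in ball w l, ENNReal.ofReal (‖H z - T z‖ ^ 2) ≤
      ENNReal.ofReal (2 * K + 2 * Real.pi * κ ^ 2 * l ^ 2) := by
    have h2 : ∀ z ∈ ball w l, ENNReal.ofReal (‖H z - T z‖ ^ 2) ≤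
        2 * ENNReal.ofReal (‖G z - H z‖ ^ 2) + ENNReal.ofReal (2 * κ ^ 2) := by
      intro z hz
      have e1 : ‖H z - T z‖ ≤ ‖G z - H z‖ + κ := by
        have : H z - T z = (G z - T z) - (G z - H z) := by ring
        rw [this]
        refine (norm_sub_le _ _).trans ?_
        linarith [hGT z hz]
      have e2 : ‖H z - T z‖ ^ 2 ≤ 2 * ‖G z - H z‖ ^ 2 + 2 * κ ^ 2 := by
        have h0 := norm_nonneg (H z - T z)
        have h0' := norm_nonneg (G z - H z)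
        nlinarith [sq_nonneg (‖G z - H z‖ - κ)]
      refine (ENNReal.ofReal_le_ofReal e2).trans ?_
      rw [ENNReal.ofReal_add (by positivity) (by positivity),
        ENNReal.ofReal_mul (by norm_num : (0 : ℝ) ≤ 2)]
      simp
    have h3 : ∫⁻ z in ball w l, ENNReal.ofReal (‖H z - T z‖ ^ 2) ≤
        ∫⁻ z in ball w l, (2 * ENNReal.ofReal (‖G z - H z‖ ^ 2) + ENNReal.ofReal (2 * κ ^ 2)) :=
      setLIntegral_mono' measurableSet_ball h2
    refine h3.trans ?_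
    rw [lintegral_add_right _ measurable_const, lintegral_const_mul' _ _ (by norm_num),
      setLIntegral_const, Complex.volume_ball]
    have h4 : ENNReal.ofReal (2 * κ ^ 2) * (ENNReal.ofReal l ^ 2 * NNReal.pi) =
        ENNReal.ofReal (2 * Real.pi * κ ^ 2 * l ^ 2) := by
      have : (NNReal.pi : ENNReal) = ENNReal.ofReal Real.pi := by
        rw [← NNReal.coe_real_pi, ENNReal.ofReal_coe_nnreal]
      rw [this, ← ENNReal.ofReal_pow hl.le, ← ENNReal.ofReal_mul (by positivity),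
        ← ENNReal.ofReal_mul (by positivity)]
      congr 1; ring
    rw [h4, ENNReal.ofReal_add (by positivity) (by positivity)]
    refine add_le_add_left ?_ _
    rw [ENNReal.ofReal_mul (by norm_num : (0 : ℝ) ≤ 2)]
    simp only [ENNReal.ofReal_ofNat]
    exact mul_le_mul_right h 2
  have h5 := mean_sq (K := 2 * K + 2 * Real.pi * κ ^ 2 * l ^ 2) hl (by positivity)
    (hH.sub hT) h1
  simp only [Pi.sub_apply] at h5
  nlinarith [h5]

theorem core (hσ : Slice σ) (hA : JetSys σ A0 A1 A2)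
    (hbox : ∀ (r : ℝ) (w : ℂ), 0 ≤ r → σ (r, w) ≤ 0 →
      ∃ a b δ, a < r ∧ r < b ∧ GoodBox σ a b w δ)
    {ε : ℝ} (hε : 0 < ε) :
    ∃ (U : Set (ℝ × ℂ)) (h : ℝ → ℂ → ℂ), IsOpen U ∧ (∀ r w, 0 ≤ r → σ (r, w) ≤ 0 → (r, w) ∈ U) ∧
      (∀ r w, (r, w) ∈ U → 0 ≤ r → ∃ δ > 0, ∃ H : ℂ → ℂ, DifferentiableOn ℂ H (ball w δ) ∧
        ∀ r' w', 0 ≤ r' → |r' - r| < δ → ‖w' - w‖ < δ → h r' w' = H w') ∧
      ∀ r w, 0 ≤ r → σ (r, w) ≤ 0 → ‖h r w - A0 r w‖ < ε := by
  obtain ⟨m, ⟨X⟩⟩ := exists_cover hσ hbox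
  obtain ⟨g, hg⟩ := gap hσ X
  obtain ⟨lT, hlT, hT⟩ := transfer hσ X hg
  obtain ⟨R, hR⟩ := cover_atlas X
  obtain ⟨CL, c, e0, hCL, hc, hc1, he0, hL⟩ := local_approx hσ X hA hg
    (fun i => box_tay hA (X.box i))
  obtain ⟨CG, l1, hCG, hl1, hG⟩ := glue X hg
  obtain ⟨d, hd, hdle⟩ := exists_delta_lb X
  obtain ⟨CA, hCA, hbd⟩ := hA.bdd
  have hpi := Real.pi_pos
  -- the constants
  set A : ℝ := 32 * Real.pi * m * R ^ 4 * CG ^ 2 * CL ^ 2 / c ^ 2 + 8 * Real.pi * CL ^ 2 with hAdef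
  have hA0 : 0 ≤ A := by positivity
  obtain ⟨e, he, he1, he2, he3, he4, he5, he6, he7⟩ : ∃ e : ℝ, 0 < e ∧ e < e0 ∧ e ≤ 1 ∧
      e ≤ lT ∧ e ≤ l1 ∧ e < g ∧ e ≤ d / 10 ∧ e ≤ ε / (A + 1) := by
    refine ⟨min (min (min (e0 / 2) 1) (min lT l1)) (min (min (g / 2) (d / 10)) (ε / (A + 1))),
      ?_, ?_, ?_, ?_, ?_, ?_, ?_, ?_⟩
    · have := hg.1
      refine lt_min (lt_min (lt_min (by linarith) one_pos) (lt_min hlT hl1))
        (lt_min (lt_min (by linarith) (by linarith)) (by positivity))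
    · refine lt_of_le_of_lt ((min_le_left _ _).trans ((min_le_left _ _).trans (min_le_left _ _))) ?_
      linarith
    · exact (min_le_left _ _).trans ((min_le_left _ _).trans (min_le_right _ _))
    · exact (min_le_left _ _).trans ((min_le_right _ _).trans (min_le_left _ _))
    · exact (min_le_left _ _).trans ((min_le_right _ _).trans (min_le_right _ _))
    · refine lt_of_le_of_lt ((min_le_right _ _).trans ((min_le_left _ _).trans (min_le_left _ _))) ?_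
      have := hg.1
      linarith
    · exact (min_le_right _ _).trans ((min_le_left _ _).trans (min_le_right _ _))
    · exact (min_le_right _ _).trans (min_le_right _ _)
  set l : ℝ := c * e with hldef
  have hl : 0 < l := mul_pos hc he
  have hle : l ≤ e := by
    rw [hldef]; nlinarith
  have hTl : Transfer X l := hT l hl (hle.trans he3)
  have hAt : Atlas m (X.P l) (X.S l) R := hR l hl hTl
  have hlg : l < g := lt_of_le_of_lt hle he5
  have hld : l ≤ d / 10 := hle.trans he6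
  obtain ⟨Q, hQ1, hQ2⟩ := hL e he he1
  obtain ⟨G, hG1, hG2, hG3, hG4⟩ := hG l hl (hle.trans he4) hTl (cover_clop X hl hTl)
    (CL * e ^ 3) Q (fun r' w' w => tpoly A0 A1 A2 r' w' w) hQ1 hQ2
  -- every point of a chart is close to a point of the closed slice in the box
  have hnear : ∀ i, ∀ w ∈ X.P l i, ∃ r' w', 0 ≤ r' ∧ σ (r', w') ≤ 0 ∧ X.InN i r' ∧
      ‖w - w'‖ < l := by
    rintro i w ⟨hw1, r, ⟨hr0, r', w', h1, h2, h3, h4⟩, hr⟩
    refine ⟨r', w', h1, h2, ?_, h4⟩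
    refine (InN_of_close X hg h1 h2 ?_ (h3.trans hlg)).1 hr
    have e1 : ‖w' - X.c i‖ ≤ ‖w - w'‖ + ‖w - X.c i‖ := by
      have : w' - X.c i = (w - X.c i) - (w - w') := by ring
      rw [this]
      refine (norm_sub_le _ _).trans (le_of_eq (add_comm _ _))
    have := hdle i
    linarith
  have hB : ∀ i, ∀ w ∈ X.P l i, ‖G i w‖ ≤ CL * e ^ 3 + (CA + CA * l + CA * l ^ 2) := by
    intro i w hw
    obtain ⟨r', w', h1, h2, h3, h4⟩ := hnear i w hw
    have e1 := hG4 i w hw r' w' h1 h2 h3 h4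
    have e2 : ‖tpoly A0 A1 A2 r' w' w‖ ≤ CA + CA * l + CA * l ^ 2 := by
      obtain ⟨b0, b1, b2⟩ := hbd r' w' h1 h2
      unfold tpoly
      refine (norm_add_le _ _).trans ?_
      refine add_le_add ((norm_add_le _ _).trans (add_le_add b0 ?_)) ?_
      · rw [norm_mul]
        exact mul_le_mul b1 h4.le (norm_nonneg _) hCA
      · rw [norm_div, norm_mul, norm_pow]
        have e3 : ‖w - w'‖ ^ 2 ≤ l ^ 2 := pow_le_pow_left₀ (norm_nonneg _) h4.le 2
        have e4 : ‖A2 r' w'‖ * ‖w - w'‖ ^ 2 ≤ CA * l ^ 2 :=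
          mul_le_mul b2 e3 (by positivity) hCA
        have e5 : ‖(2 : ℂ)‖ = 2 := by simp
        rw [e5]
        have : 0 ≤ ‖A2 r' w'‖ * ‖w - w'‖ ^ 2 := by positivity
        linarith
    have e3 : G i w = (G i w - tpoly A0 A1 A2 r' w' w) + tpoly A0 A1 A2 r' w' w := by ring
    rw [e3]
    exact (norm_add_le _ _).trans (add_le_add e1 e2)
  obtain ⟨H, hH1, hH2, hH3⟩ := atlas_dbar hAt G hG1 hG2 _ (CG * (CL * e ^ 3)) hB hG3
  set K : ℝ := 4 * Real.pi * m * R ^ 4 * (CG * (CL * e ^ 3)) ^ 2 with hKdef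
  have hK0 : 0 ≤ K := by positivity
  classical
  let h : ℝ → ℂ → ℂ := fun r w =>
    if hx : ∃ i, X.InN i r ∧ ‖w - X.c i‖ < X.δ i / 2 then H hx.choose w else 0
  let U : Set (ℝ × ℂ) := {p | ∃ r' w', 0 ≤ r' ∧ σ (r', w') ≤ 0 ∧ |p.1 - r'| < l ∧ ‖p.2 - w'‖ < l}
  have hU : IsOpen U := by
    have : U = ⋃ (q : ℝ × ℂ) (_ : 0 ≤ q.1 ∧ σ q ≤ 0),
        {p : ℝ × ℂ | |p.1 - q.1| < l ∧ ‖p.2 - q.2‖ < l} := by
      ext p
      simp only [U, mem_ofPred_eq, mem_iUnion]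
      constructor
      · rintro ⟨r', w', h1, h2, h3, h4⟩
        exact ⟨(r', w'), ⟨h1, h2⟩, h3, h4⟩
      · rintro ⟨⟨r', w'⟩, ⟨h1, h2⟩, h3, h4⟩
        exact ⟨r', w', h1, h2, h3, h4⟩
    rw [this]
    refine isOpen_iUnion fun q => isOpen_iUnion fun _ => ?_
    refine IsOpen.inter ?_ ?_
    · exact isOpen_lt ((continuous_fst.sub continuous_const).abs) continuous_const
    · exact isOpen_lt ((continuous_snd.sub continuous_const).norm) continuous_const
  have hval : ∀ r w, 0 ≤ r → (r, w) ∈ U → ∀ i, X.InN i r → ‖w - X.c i‖ < X.δ i / 2 →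
      h r w = H i w := by
    rintro r w hr ⟨r', w', h1, h2, h3, h4⟩ i hi hiw
    have hx : ∃ i, X.InN i r ∧ ‖w - X.c i‖ < X.δ i / 2 := ⟨i, hi, hiw⟩
    have : h r w = H hx.choose w := dif_pos hx
    rw [this]
    refine hH2 _ _ w ?_
    exact ⟨hx.choose_spec.2, hiw, r, ⟨hr, r', w', h1, h2, h3, h4⟩, hx.choose_spec.1, hi⟩
  refine ⟨U, h, hU, ?_, ?_, ?_⟩
  · intro r w hr hs
    exact ⟨r, w, hr, hs, by simpa using hl, by simpa using hl⟩
  · rintro r w hrU hr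
    obtain ⟨r', w', h1, h2, h3, h4⟩ := hrU
    obtain ⟨j, hj1, hj2, hj3⟩ := X.cov r' w' h1 h2
    have hdj := hdle j
    have hjr : X.InN j r := by
      refine (InN_of_close X hg h1 h2 ?_ (lt_trans h3 hlg)).2 ⟨hj1, hj2⟩
      linarith
    have hjw : ‖w - X.c j‖ < X.δ j / 2 := by
      have e1 : ‖w - X.c j‖ ≤ ‖w - w'‖ + ‖w' - X.c j‖ := by
        have : w - X.c j = (w - w') + (w' - X.c j) := by ring
        rw [this]; exact norm_add_le _ _
      linarith
    have hopen : IsOpen {p : ℝ × ℂ | p ∈ U ∧ X.InN j p.1 ∧ ‖p.2 - X.c j‖ < X.δ j / 2} := by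
      refine hU.inter (IsOpen.inter ?_ ?_)
      · exact (isOpen_lt continuous_const continuous_fst).inter
          (isOpen_lt continuous_fst continuous_const)
      · exact isOpen_lt ((continuous_snd.sub continuous_const).norm) continuous_const
    obtain ⟨δ, hδ, hball⟩ := Metric.isOpen_iff.1 hopen (r, w) ⟨⟨r', w', h1, h2, h3, h4⟩, hjr, hjw⟩
    have hmem : ∀ r1 w1, |r1 - r| < δ → ‖w1 - w‖ < δ →
        ((r1, w1) ∈ U ∧ X.InN j r1 ∧ ‖w1 - X.c j‖ < X.δ j / 2) := by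
      intro r1 w1 a1 a2
      refine hball ?_
      rw [mem_ball, Prod.dist_eq, max_lt_iff]
      exact ⟨by simpa [Real.dist_eq] using a1, by simpa [dist_eq_norm] using a2⟩
    refine ⟨δ, hδ, H j, ?_, ?_⟩
    · refine (hH1 j).mono fun w1 hw1 => ?_
      have hw1' : ‖w1 - w‖ < δ := by simpa [dist_eq_norm] using hw1
      obtain ⟨⟨r2, w2, b1, b2, b3, b4⟩, a2, a3⟩ := hmem r w1 (by simpa using hδ) hw1'
      exact ⟨a3, r, ⟨hr, r2, w2, b1, b2, b3, b4⟩, a2⟩
    · intro r1 w1 hr1 a1 a2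
      obtain ⟨b1, b2, b3⟩ := hmem r1 w1 a1 a2
      exact hval r1 w1 hr1 b1 j b2 b3
  · intro r w hr hs
    obtain ⟨i, hi1, hi2, hi3⟩ := X.cov r w hr hs
    have hdi := hdle i
    have hiw : ‖w - X.c i‖ < X.δ i / 2 := by linarith
    rw [hval r w hr ⟨r, w, hr, hs, by simpa using hl, by simpa using hl⟩ i ⟨hi1, hi2⟩ hiw]
    have hsub : ball w l ⊆ X.P l i := by
      intro w' hw'
      have hw2 : ‖w' - w‖ < l := by simpa [dist_eq_norm] using hw'
      refine ⟨?_, r, ⟨hr, r, w, hr, hs, by simpa using hl, hw2⟩, hi1, hi2⟩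
      have e1 : ‖w' - X.c i‖ ≤ ‖w' - w‖ + ‖w - X.c i‖ := by
        have : w' - X.c i = (w' - w) + (w - X.c i) := by ring
        rw [this]; exact norm_add_le _ _
      linarith
    have e1 := sup_est (T := fun w' => tpoly A0 A1 A2 r w w') (κ := CL * e ^ 3) (K := K) hl hK0
      ((hH1 i).mono hsub) (tpoly_diff r w).differentiableOn
      (fun z hz => hG4 i z (hsub hz) r w hr hs ⟨hi1, hi2⟩ (by simpa [dist_eq_norm] using hz))
      ((lintegral_mono_set hsub).trans (hH3 i))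
    simp only [tpoly_self] at e1
    -- conclude
    have e2 : 8 * K + 8 * Real.pi * (CL * e ^ 3) ^ 2 * l ^ 2 ≤ (A * e ^ 2) * l ^ 2 := by
      have e3 : e ^ 4 ≤ e ^ 2 := pow_le_pow_of_le_one he.le he2 (by norm_num)
      have e5 : 8 * K = (32 * Real.pi * m * R ^ 4 * CG ^ 2 * CL ^ 2 / c ^ 2) * e ^ 4 * l ^ 2 := by
        rw [hKdef, hldef]; field_simp; ring
      have e6 : 8 * Real.pi * (CL * e ^ 3) ^ 2 * l ^ 2 ≤ (8 * Real.pi * CL ^ 2) * e ^ 2 * l ^ 2 := by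
        have : e ^ 6 ≤ e ^ 2 := pow_le_pow_of_le_one he.le he2 (by norm_num)
        have h7 : 0 ≤ 8 * Real.pi * CL ^ 2 * l ^ 2 := by positivity
        nlinarith [mul_le_mul_of_nonneg_left this h7]
      have e7 : (32 * Real.pi * m * R ^ 4 * CG ^ 2 * CL ^ 2 / c ^ 2) * e ^ 4 * l ^ 2 ≤
          (32 * Real.pi * m * R ^ 4 * CG ^ 2 * CL ^ 2 / c ^ 2) * e ^ 2 * l ^ 2 := by
        have h8 : 0 ≤ (32 * Real.pi * m * R ^ 4 * CG ^ 2 * CL ^ 2 / c ^ 2) := by positivity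
        exact mul_le_mul_of_nonneg_right (mul_le_mul_of_nonneg_left e3 h8) (by positivity)
      rw [e5, hAdef]
      nlinarith
    have e3 : ‖H i w - A0 r w‖ ^ 2 ≤ A * e ^ 2 := by
      have h9 := e1.trans e2
      exact le_of_mul_le_mul_right h9 (by positivity)
    have e4 : A * e ^ 2 < ε ^ 2 := by
      have h10 : e * (A + 1) ≤ ε := by
        rw [le_div_iff₀ (by positivity)] at he7
        exact he7
      have h11 : (e * (A + 1)) ^ 2 ≤ ε ^ 2 := pow_le_pow_left₀ (by positivity) h10 2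
      have h12 : A * e ^ 2 < (e * (A + 1)) ^ 2 := by
        have : 0 < e ^ 2 := by positivity
        nlinarith [mul_pos this (by positivity : 0 < A ^ 2 + A + 1)]
      exact h12.trans_le h11
    exact lt_of_pow_lt_pow_left₀ 2 hε.le (e3.trans_lt e4)

end Pool.Helper51.Hart
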