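import Mathlib

/-!
# Hartogs domains with a Stein neighbourhood basis: definitions (helper51, MP_7ef401_an)

`ρ : ℂ × ℂ → ℝ` is a smooth defining function of `Ω = {ρ < 0}`, invariant under rotations of the
first variable `z`.  Everything is reduced to the real slice `σ (r, w) = ρ (r, w)`, `r ≥ 0` real.
-/

set_option autoImplicit false

noncomputable section

open Set Metric Complex MeasureTheory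

namespace Pool.Helper51.Hart

/-- Stein neighbourhood basis of `K`, in the form of the frozen statement. -/
def SteinBasis (K : Set (ℂ × ℂ)) : Prop :=
  ∀ U : Set (ℂ × ℂ), IsOpen U → K ⊆ U →
    ∃ V : Set (ℂ × ℂ), IsOpen V ∧ K ⊆ V ∧ V ⊆ U ∧
      ∀ S ⊆ V, IsCompact S →
        IsCompact {z ∈ V | ∀ f : ℂ × ℂ → ℂ, DifferentiableOn ℂ f V →
          ∀ M : ℝ, (∀ w ∈ S, ‖f w‖ ≤ M) → ‖f z‖ ≤ M}

/-- `Ω = {ρ < 0}` is a bounded smooth domain invariant under rotation of the first variable. -/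
structure HDom (ρ : ℂ × ℂ → ℝ) : Prop where
  smooth : ContDiff ℝ ((⊤ : ℕ∞) : WithTop ℕ∞) ρ
  bdd : Bornology.IsBounded {p | ρ p < 0}
  reg : ∀ p, ρ p = 0 → fderiv ℝ ρ p ≠ 0
  inv : ∀ c z w : ℂ, ‖c‖ = 1 → ρ (z, w) < 0 → ρ (c * z, w) < 0

/-- The real slice of `ρ`. -/
def sl (ρ : ℂ × ℂ → ℝ) : ℝ × ℂ → ℝ := fun p => ρ ((p.1 : ℂ), p.2)

/-- The point of the disc family of `kont2`: `w₀ + t exp (i (c₀ + c₁ ζ + c₂ ζ²))`, `ζ = x + i y`. -/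
def disc (w₀ : ℂ) (c0 c1 c2 t x y : ℝ) : ℂ :=
  w₀ + t * Complex.exp (I * (c0 + c1 * (x + y * I) + c2 * (x + y * I) ^ 2))

/-- All the information on the slice that the geometric part uses. The relevant points are the
`(r, w)` with `0 ≤ r` and `σ (r, w) ≤ 0` (closed set) or `σ (r, w) < 0` (interior). -/
structure Slice (σ : ℝ × ℂ → ℝ) : Prop where
  smooth : ContDiff ℝ ((⊤ : ℕ∞) : WithTop ℕ∞) σ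
  cpt : IsCompact {p : ℝ × ℂ | σ p ≤ 0}
  reg : ∀ p, σ p = 0 → fderiv ℝ σ p ≠ 0
  deriv0 : ∀ w, σ (0, w) = 0 → fderiv ℝ σ (0, w) (1, 0) = 0
  /-- continuity principle for annuli -/
  kont1 : ∀ (r1 r2 : ℝ → ℝ) (w : ℝ → ℂ),
    ContinuousOn r1 (Icc 0 1) → ContinuousOn r2 (Icc 0 1) → ContinuousOn w (Icc 0 1) →
    (∀ t ∈ Icc (0 : ℝ) 1, 0 ≤ r1 t ∧ r1 t ≤ r2 t) →
    (∀ t ∈ Icc (0 : ℝ) 1, σ (r1 t, w t) ≤ 0 ∧ σ (r2 t, w t) ≤ 0) →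
    (∀ s ∈ Icc (r1 0) (r2 0), σ (s, w 0) ≤ 0) →
    ∀ t ∈ Icc (0 : ℝ) 1, ∀ s ∈ Icc (r1 t) (r2 t), σ (s, w t) ≤ 0
  /-- continuity principle for round discs -/
  kont0 : ∀ (r2 : ℝ → ℝ) (w : ℝ → ℂ),
    ContinuousOn r2 (Icc 0 1) → ContinuousOn w (Icc 0 1) →
    (∀ t ∈ Icc (0 : ℝ) 1, 0 ≤ r2 t) →
    (∀ t ∈ Icc (0 : ℝ) 1, σ (r2 t, w t) ≤ 0) →
    (∀ s ∈ Icc 0 (r2 0), σ (s, w 0) ≤ 0) →
    ∀ t ∈ Icc (0 : ℝ) 1, ∀ s ∈ Icc 0 (r2 t), σ (s, w t) ≤ 0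
  /-- continuity principle for the exponential discs -/
  kont2 : ∀ (w₀ : ℂ) (L1 L2 Θ c0 c1 c2 t0 : ℝ), L1 < L2 → 0 < Θ → 0 ≤ t0 →
    (∀ x ∈ Icc L1 L2, σ (Real.exp x, w₀) ≤ 0) →
    (∀ x ∈ Icc L1 L2, ∀ y ∈ Icc (-Θ) Θ, (x = L1 ∨ x = L2 ∨ y = -Θ ∨ y = Θ) →
      ∀ t ∈ Icc 0 t0, σ (Real.exp x, disc w₀ c0 c1 c2 t x y) ≤ 0) →
    ∀ x ∈ Icc L1 L2, ∀ y ∈ Icc (-Θ) Θ, ∀ t ∈ Icc 0 t0,
      σ (Real.exp x, disc w₀ c0 c1 c2 t x y) ≤ 0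

/-- A five move chain inside the closed slice from `(r, w)` to `(r', w')`: vertical moves over
`w`, `w1`, `w'`, and straight horizontal moves at the radii `r1` and `r2`. -/
def Chain (σ : ℝ × ℂ → ℝ) (r : ℝ) (w : ℂ) (r1 : ℝ) (w1 : ℂ) (r2 r' : ℝ) (w' : ℂ) : Prop :=
  0 ≤ r1 ∧ 0 ≤ r2 ∧
  (∀ s ∈ uIcc r r1, σ (s, w) ≤ 0) ∧
  (∀ t ∈ Icc (0 : ℝ) 1, σ (r1, w + t * (w1 - w)) ≤ 0) ∧
  (∀ s ∈ uIcc r1 r2, σ (s, w1) ≤ 0) ∧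
  (∀ t ∈ Icc (0 : ℝ) 1, σ (r2, w1 + t * (w' - w1)) ≤ 0) ∧
  (∀ s ∈ uIcc r2 r', σ (s, w') ≤ 0)

/-- `(r, w)` lies in the closed slice and in the box `(a, b) × ball w₀ δ`. -/
def InBox (σ : ℝ × ℂ → ℝ) (a b : ℝ) (w₀ : ℂ) (δ : ℝ) (r : ℝ) (w : ℂ) : Prop :=
  0 ≤ r ∧ σ (r, w) ≤ 0 ∧ a < r ∧ r < b ∧ ‖w - w₀‖ < δ

/-- A box in which the closed slice is one sheet, with the chain and push properties. -/
structure GoodBox (σ : ℝ × ℂ → ℝ) (a b : ℝ) (w₀ : ℂ) (δ : ℝ) : Prop where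
  hδ : 0 < δ
  ends : ∀ r w, 0 ≤ r → σ (r, w) ≤ 0 → ‖w - w₀‖ ≤ δ → r ≠ a ∧ r ≠ b
  fib : ∀ r r' w, InBox σ a b w₀ δ r w → InBox σ a b w₀ δ r' w →
    ∀ s ∈ uIcc r r', σ (s, w) ≤ 0
  chain : ∃ C : ℝ, 0 ≤ C ∧ ∀ r w r' w', InBox σ a b w₀ δ r w → InBox σ a b w₀ δ r' w' →
    ∃ r1 w1 r2, Chain σ r w r1 w1 r2 r' w' ∧ ‖w1 - w‖ ≤ C * ‖w' - w‖ ∧
      ‖w' - w1‖ ≤ C * ‖w' - w‖
  push : ∃ (v : ℂ) (c ε₀ : ℝ), ‖v‖ ≤ 1 ∧ 0 < c ∧ c ≤ 1 ∧ 0 < ε₀ ∧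
    ∀ ε, 0 < ε → ε < ε₀ → ∀ r w w', InBox σ a b w₀ δ r w → ‖w' - w‖ < c * ε →
      ∃ r'', 0 ≤ r'' ∧ a < r'' ∧ r'' < b ∧ σ (r'', w' + ε * v) < 0

/-- Second order Taylor polynomial at `(r, w)` evaluated at `w'`. -/
def tpoly (A0 A1 A2 : ℝ → ℂ → ℂ) (r : ℝ) (w w' : ℂ) : ℂ :=
  A0 r w + A1 r w * (w' - w) + A2 r w * (w' - w) ^ 2 / 2

/-- Taylor comparison of the jets at `(r, w)` and `(r', w')` with constant `C` and scale `s`. -/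
def Tay (A0 A1 A2 : ℝ → ℂ → ℂ) (C s : ℝ) (r : ℝ) (w : ℂ) (r' : ℝ) (w' : ℂ) : Prop :=
  ‖A0 r' w' - tpoly A0 A1 A2 r w w'‖ ≤ C * s ^ 3 ∧
  ‖A1 r' w' - (A1 r w + A2 r w * (w' - w))‖ ≤ C * s ^ 2 ∧
  ‖A2 r' w' - A2 r w‖ ≤ C * s

/-- Jets on the closed slice: constant on vertical segments, Taylor along horizontal segments. -/
structure JetSys (σ : ℝ × ℂ → ℝ) (A0 A1 A2 : ℝ → ℂ → ℂ) : Prop where
  fib : ∀ r r' w, 0 ≤ r → 0 ≤ r' → (∀ s ∈ uIcc r r', σ (s, w) ≤ 0) →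
    A0 r w = A0 r' w ∧ A1 r w = A1 r' w ∧ A2 r w = A2 r' w
  tay : ∃ C : ℝ, 0 ≤ C ∧ ∀ r w w', 0 ≤ r → (∀ t ∈ Icc (0 : ℝ) 1, σ (r, w + t * (w' - w)) ≤ 0) →
    Tay A0 A1 A2 C ‖w' - w‖ r w r w'
  bdd : ∃ C : ℝ, 0 ≤ C ∧ ∀ r w, 0 ≤ r → σ (r, w) ≤ 0 →
    ‖A0 r w‖ ≤ C ∧ ‖A1 r w‖ ≤ C ∧ ‖A2 r w‖ ≤ C

/-- Finite cover of the closed slice by good boxes. -/
structure Cover (σ : ℝ × ℂ → ℝ) (m : ℕ) where
  a : Fin m → ℝ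
  b : Fin m → ℝ
  c : Fin m → ℂ
  δ : Fin m → ℝ
  box : ∀ i, GoodBox σ (a i) (b i) (c i) (δ i)
  cov : ∀ r w, 0 ≤ r → σ (r, w) ≤ 0 → ∃ i, a i < r ∧ r < b i ∧ ‖w - c i‖ < δ i / 3

/-- `(r, w)` is `l`-close to the closed slice. -/
def Near (σ : ℝ × ℂ → ℝ) (l r : ℝ) (w : ℂ) : Prop :=
  0 ≤ r ∧ ∃ r' w', 0 ≤ r' ∧ σ (r', w') ≤ 0 ∧ |r - r'| < l ∧ ‖w - w'‖ < l

variable {σ : ℝ × ℂ → ℝ} {m : ℕ}

/-- `r` lies in the vertical interval of the box `i`. -/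
def Cover.InN (X : Cover σ m) (i : Fin m) (r : ℝ) : Prop := X.a i < r ∧ r < X.b i

/-- planar chart domain of the box `i` at thickness `l` -/
def Cover.P (X : Cover σ m) (l : ℝ) (i : Fin m) : Set ℂ :=
  {w | ‖w - X.c i‖ < X.δ i / 2 ∧ ∃ r, Near σ l r w ∧ X.InN i r}

/-- gluing set of the boxes `i` and `j` at thickness `l` -/
def Cover.S (X : Cover σ m) (l : ℝ) (i j : Fin m) : Set ℂ :=
  {w | ‖w - X.c i‖ < X.δ i / 2 ∧ ‖w - X.c j‖ < X.δ j / 2 ∧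
    ∃ r, Near σ l r w ∧ X.InN i r ∧ X.InN j r}

/-- twice the Cauchy Riemann operator -/
def dbar (f : ℂ → ℂ) (w : ℂ) : ℂ := fderiv ℝ f w 1 + I * fderiv ℝ f w I

/-- twice the holomorphic derivative -/
def dhol (f : ℂ → ℂ) (w : ℂ) : ℂ := fderiv ℝ f w 1 - I * fderiv ℝ f w I

/-- Finite étale atlas over `ℂ`: planar open charts `P i`, glued by the identity on the open
sets `S i j`, which are relatively closed in `P i ∩ P j`. -/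
structure Atlas (m : ℕ) (P : Fin m → Set ℂ) (S : Fin m → Fin m → Set ℂ) (R : ℝ) : Prop where
  openP : ∀ i, IsOpen (P i)
  openS : ∀ i j, IsOpen (S i j)
  sub : ∀ i j, S i j ⊆ P i ∩ P j
  refl : ∀ i, S i i = P i
  symm : ∀ i j, S i j ⊆ S j i
  trans : ∀ i j k, S i j ∩ S j k ⊆ S i k
  clop : ∀ i j, IsOpen ((P i ∩ P j) \ S i j)
  Rpos : 0 < R
  bdd : ∀ i, P i ⊆ ball 0 R

end Pool.Helper51.Hart
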