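import Pool.Agent.Helper51.Hart.Defs

set_option autoImplicit false

noncomputable section

open Set Metric Complex MeasureTheory

namespace Pool.Helper51.Hart

/-- Abstract continuity principle for the set `K`. -/
def KontP (K : Set (ℂ × ℂ)) : Prop :=
  ∀ (X : Type) [TopologicalSpace X] (Q P : Set X), IsCompact Q → IsCompact P → P ⊆ Q →
    ∀ (F : ℝ → X → ℂ × ℂ),
    ContinuousOn (fun p : ℝ × X => F p.1 p.2) (Icc (0 : ℝ) 1 ×ˢ Q) →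
    (∀ t ∈ Icc (0 : ℝ) 1, ∀ x ∈ P, F t x ∈ K) →
    (∀ t ∈ Icc (0 : ℝ) 1, ∀ V : Set (ℂ × ℂ), IsOpen V → (∀ x ∈ Q, F t x ∈ V) →
      ∀ f : ℂ × ℂ → ℂ, DifferentiableOn ℂ f V → ∀ M : ℝ, (∀ x ∈ P, ‖f (F t x)‖ ≤ M) →
        ∀ x ∈ Q, ‖f (F t x)‖ ≤ M) →
    (∀ x ∈ Q, F 0 x ∈ K) →
    ∀ t ∈ Icc (0 : ℝ) 1, ∀ x ∈ Q, F t x ∈ K

/-- Elementary facts about `{ρ ≤ 0}`. -/
structure HFacts (ρ : ℂ × ℂ → ℝ) : Prop where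
  closure_eq : closure {p | ρ p < 0} = {p | ρ p ≤ 0}
  cpt : IsCompact {p | ρ p ≤ 0}
  inv_le : ∀ c z w : ℂ, ‖c‖ = 1 → ρ (z, w) ≤ 0 → ρ (c * z, w) ≤ 0
  norm_le : ∀ z w : ℂ, ρ (z, w) ≤ 0 ↔ ρ (((‖z‖ : ℝ) : ℂ), w) ≤ 0
  norm_lt : ∀ z w : ℂ, ρ (z, w) < 0 ↔ ρ (((‖z‖ : ℝ) : ℂ), w) < 0
  axis : ∀ w : ℂ, ρ (0, w) = 0 → ∀ ζ : ℂ, fderiv ℝ ρ (0, w) (ζ, 0) = 0

/-- `[α, β]` is a maximal vertical interval of the closed slice over `w₀`. -/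
def MaxInt (σ : ℝ × ℂ → ℝ) (w₀ : ℂ) (α β : ℝ) : Prop :=
  0 ≤ α ∧ α ≤ β ∧ (∀ s ∈ Icc α β, σ (s, w₀) ≤ 0) ∧
  (∀ ε > 0, ∃ s, β < s ∧ s < β + ε ∧ 0 < σ (s, w₀)) ∧
  (α = 0 ∨ ∀ ε > 0, ∃ s, 0 ≤ s ∧ α - ε < s ∧ s < α ∧ 0 < σ (s, w₀))

/-- The straight segment from `(r, w)` to `(r', w')` stays in the closed slice, over `ball w₀ ε`. -/
def SegIn (σ : ℝ × ℂ → ℝ) (w₀ : ℂ) (ε : ℝ) (r : ℝ) (w : ℂ) (r' : ℝ) (w' : ℂ) : Prop :=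
  ∀ t ∈ Icc (0 : ℝ) 1, 0 ≤ r + t * (r' - r) ∧ σ (r + t * (r' - r), w + t * (w' - w)) ≤ 0 ∧
    ‖w + t * (w' - w) - w₀‖ < ε

/-- local connectedness of the closed slice (three straight segments) -/
def LocalConn (σ : ℝ × ℂ → ℝ) : Prop :=
  ∀ (r : ℝ) (w : ℂ), 0 ≤ r → σ (r, w) ≤ 0 → ∀ ε > 0, ∃ δ > 0, ∀ (r' : ℝ) (w' : ℂ), 0 ≤ r' →
    σ (r', w') ≤ 0 → |r' - r| < δ → ‖w' - w‖ < δ → ∃ (r1 : ℝ) (w1 : ℂ) (r2 : ℝ) (w2 : ℂ),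
      SegIn σ w ε r w r1 w1 ∧ SegIn σ w ε r1 w1 r2 w2 ∧ SegIn σ w ε r2 w2 r' w'

/-- comparison of the direction angle with affine functions of `log r` -/
def Compare (σ : ℝ × ℂ → ℝ) : Prop :=
  ∀ (w₀ : ℂ) (L1 L2 : ℝ), L1 < L2 → (∀ L ∈ Icc L1 L2, σ (Real.exp L, w₀) = 0) →
    ∀ (N ϑ : ℝ → ℝ), ContinuousOn N (Icc L1 L2) → ContinuousOn ϑ (Icc L1 L2) →
    (∀ L ∈ Icc L1 L2, 0 < N L) →
    (∀ L ∈ Icc L1 L2, ∀ η : ℂ, fderiv ℝ σ (Real.exp L, w₀) (0, η) =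
      -(N L * (Complex.exp (-(ϑ L * I)) * η).re)) →
    ∀ p q : ℝ,
      (ϑ L1 ≤ p + q * L1 → ϑ L2 ≤ p + q * L2 → ∀ L ∈ Icc L1 L2, ϑ L ≤ p + q * L) ∧
      (p + q * L1 ≤ ϑ L1 → p + q * L2 ≤ ϑ L2 → ∀ L ∈ Icc L1 L2, p + q * L ≤ ϑ L)

/-- conclusion of the module `push_out` -/
def PushOut (σ : ℝ × ℂ → ℝ) : Prop :=
  ∀ (w₀ v : ℂ) (r h ς : ℝ), 0 < h → (ς = 1 ∨ ς = -1) →
    (∀ s ∈ Icc 0 h, σ (r - ς * s, w₀) = 0) → fderiv ℝ σ (r, w₀) (0, v) = 0 →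
    0 < ς * deriv (fun s : ℝ => fderiv ℝ σ (s, w₀) (0, v)) r →
    ∃ M > 0, ∃ τ₀ > 0, ∀ τ, 0 < τ → τ < τ₀ → σ (r + ς * (M * τ), w₀ - τ * v) < 0

/-- Whitney type comparison of the jets inside one box -/
def BoxTay (σ : ℝ × ℂ → ℝ) (A0 A1 A2 : ℝ → ℂ → ℂ) (a b : ℝ) (w₀ : ℂ) (δ C : ℝ) : Prop :=
  0 ≤ C ∧ ∀ r w r' w', InBox σ a b w₀ δ r w → InBox σ a b w₀ δ r' w' →
    Tay A0 A1 A2 C ‖w' - w‖ r w r' w'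

variable {σ : ℝ × ℂ → ℝ} {m : ℕ}

/-- gap between the closed slice and the ends of the boxes -/
def Gap (X : Cover σ m) (g : ℝ) : Prop :=
  0 < g ∧ ∀ i r w, 0 ≤ r → σ (r, w) ≤ 0 → ‖w - X.c i‖ ≤ X.δ i →
    g ≤ |r - X.a i| ∧ g ≤ |r - X.b i|

/-- the sheets of two boxes over one point either agree or are disjoint (thickness `l`) -/
def Transfer (X : Cover σ m) (l : ℝ) : Prop :=
  ∀ i j r r' w, ‖w - X.c i‖ < X.δ i / 2 → ‖w - X.c j‖ < X.δ j / 2 →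
    Near σ l r w → Near σ l r' w → X.InN i r → X.InN j r → X.InN i r' → X.InN j r'

/-- `F` is smooth and satisfies the Cauchy Riemann equations at all points of `{ρ ≤ 0}`. -/
def CR (ρ : ℂ × ℂ → ℝ) (F : ℂ × ℂ → ℂ) : Prop :=
  ContDiff ℝ ((⊤ : ℕ∞) : WithTop ℕ∞) F ∧
    ∀ p, ρ p ≤ 0 → ∀ v : ℂ × ℂ, fderiv ℝ F p (I • v) = I * fderiv ℝ F p v

/-- derivative in `w` -/
def Dw (F : ℂ × ℂ → ℂ) : ℂ × ℂ → ℂ := fun p => fderiv ℝ F p (0, 1)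

/-- derivative in `z` -/
def Dz (F : ℂ × ℂ → ℂ) : ℂ × ℂ → ℂ := fun p => fderiv ℝ F p (1, 0)

/-- circular average in the first variable -/
def avg (F : ℂ × ℂ → ℂ) (r : ℝ) (w : ℂ) : ℂ :=
  (2 * Real.pi : ℂ)⁻¹ * ∫ θ in (0 : ℝ)..(2 * Real.pi), F (r * Complex.exp (θ * I), w)

/-- Fourier coefficient of order `k` for the rotation of the first variable -/
def fc (g : ℂ × ℂ → ℂ) (k : ℤ) (z w : ℂ) : ℂ :=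
  (2 * Real.pi : ℂ)⁻¹ * ∫ θ in (0 : ℝ)..(2 * Real.pi),
    g (Complex.exp (θ * I) * z, w) * Complex.exp (-(k * θ * I))

end Pool.Helper51.Hart
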