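import Pool.Agent.Helper51.Hart.ApproxProd

/-!
# Transfer to `Fin 2 → ℂ`
-/

set_option autoImplicit false

noncomputable section

open Set Metric Complex MeasureTheory Filter
open scoped Topology ComplexConjugate

namespace Pool.Helper51.Hart

/-- coordinates -/
def ee : (ℂ × ℂ) ≃L[ℂ] (Fin 2 → ℂ) := (ContinuousLinearEquiv.finTwoArrow ℂ ℂ).symm

theorem ee_apply (p : ℂ × ℂ) : ee p = ![p.1, p.2] := by
  ext i; fin_cases i <;> rfl

theorem ee_zero (p : ℂ × ℂ) : ee p 0 = p.1 := rfl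
theorem ee_one (p : ℂ × ℂ) : ee p 1 = p.2 := rfl

theorem closure_pre (s : Set (Fin 2 → ℂ)) : closure (ee ⁻¹' s) = ee ⁻¹' closure s :=
  (ee.toHomeomorph.preimage_closure s).symm

theorem diff_ee {f : (Fin 2 → ℂ) → ℂ} {s : Set (Fin 2 → ℂ)} (hf : DifferentiableOn ℂ f s) :
    DifferentiableOn ℂ (fun p => f (ee p)) (ee ⁻¹' s) :=
  hf.comp ee.differentiable.differentiableOn fun _ h => h

theorem diff_ee_symm {f : ℂ × ℂ → ℂ} {s : Set (Fin 2 → ℂ)}
    (hf : DifferentiableOn ℂ f (ee ⁻¹' s)) :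
    DifferentiableOn ℂ (fun z => f (ee.symm z)) s := by
  refine hf.comp ee.symm.differentiable.differentiableOn fun z hz => ?_
  simpa using hz

theorem result :
    ∀ (Ω : Set (Fin 2 → ℂ)),
      IsOpen Ω → IsConnected Ω → Bornology.IsBounded Ω →
      (∃ ρ : (Fin 2 → ℂ) → ℝ, ContDiff ℝ ((⊤ : ℕ∞) : WithTop ℕ∞) ρ ∧
          Ω = {z | ρ z < 0} ∧ ∀ z, ρ z = 0 → fderiv ℝ ρ z ≠ 0) →
      (∀ z ∈ Ω, ∀ c : ℂ, ‖c‖ = 1 → ![c * z 0, z 1] ∈ Ω) →
      (∀ U : Set (Fin 2 → ℂ), IsOpen U → closure Ω ⊆ U →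
          ∃ V : Set (Fin 2 → ℂ), IsOpen V ∧ closure Ω ⊆ V ∧ V ⊆ U ∧
            ∀ K ⊆ V, IsCompact K →
              IsCompact {z ∈ V | ∀ f : (Fin 2 → ℂ) → ℂ, DifferentiableOn ℂ f V →
                ∀ M : ℝ, (∀ w ∈ K, ‖f w‖ ≤ M) → ‖f z‖ ≤ M}) →
      ∀ g : (Fin 2 → ℂ) → ℂ, ContDiff ℝ ((⊤ : ℕ∞) : WithTop ℕ∞) g →
        DifferentiableOn ℂ g Ω →
        ∀ ε : ℝ, 0 < ε →
          ∃ U : Set (Fin 2 → ℂ), IsOpen U ∧ closure Ω ⊆ U ∧
            ∃ h : (Fin 2 → ℂ) → ℂ, DifferentiableOn ℂ h U ∧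
              ∀ z ∈ closure Ω, ‖g z - h z‖ < ε := by
  rintro Ω - hconn hbdd ⟨ρ, hρ1, rfl, hρ2⟩ hinv hS g hg1 hg2 ε hε
  let eR : (ℂ × ℂ) ≃L[ℝ] (Fin 2 → ℂ) := (ContinuousLinearEquiv.finTwoArrow ℝ ℂ).symm
  have heR : ∀ p, eR p = ee p := fun _ => rfl
  let ρ' : ℂ × ℂ → ℝ := fun p => ρ (ee p)
  have hset : {p : ℂ × ℂ | ρ' p < 0} = ee ⁻¹' {z | ρ z < 0} := rfl
  have hH : HDom ρ' := by
    refine ⟨hρ1.comp eR.contDiff, ?_, ?_, ?_⟩
    · rw [hset]
      have : ee ⁻¹' {z | ρ z < 0} = ee.symm '' {z | ρ z < 0} := by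
        ext p
        constructor
        · intro hp; exact ⟨ee p, hp, by simp⟩
        · rintro ⟨z, hz, rfl⟩; simpa using hz
      rw [this]
      exact ee.symm.lipschitz.isBounded_image hbdd
    · intro p hp h0
      refine hρ2 (ee p) hp ?_
      have h1 : fderiv ℝ ρ' p = (fderiv ℝ ρ (ee p)).comp (eR : (ℂ × ℂ) →L[ℝ] (Fin 2 → ℂ)) := by
        have hd : DifferentiableAt ℝ ρ (eR p) := (hρ1.differentiable (by norm_num)) _
        exact (hd.hasFDerivAt.comp p eR.hasFDerivAt).fderiv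
      rw [h0] at h1
      refine ContinuousLinearMap.ext fun z => ?_
      have h2 : (0 : (ℂ × ℂ) →L[ℝ] ℝ) (eR.symm z) =
          ((fderiv ℝ ρ (ee p)).comp (eR : (ℂ × ℂ) →L[ℝ] (Fin 2 → ℂ))) (eR.symm z) := by rw [← h1]
      simpa using h2.symm
    · intro c z w hc hzw
      have h1 := hinv (ee (z, w)) hzw c hc
      rw [ee_zero, ee_one] at h1
      change ρ (ee (c * z, w)) < 0
      rw [ee_apply]
      exact h1
  have hconn' : IsConnected {p : ℂ × ℂ | ρ' p < 0} := by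
    rw [hset]
    exact (ee.toHomeomorph.isConnected_preimage).2 hconn
  have hS' : SteinBasis (closure {p : ℂ × ℂ | ρ' p < 0}) := by
    intro U hU hKU
    rw [hset, closure_pre] at hKU
    obtain ⟨V, hV1, hV2, hV3, hV4⟩ := hS (ee.symm ⁻¹' U) (hU.preimage ee.symm.continuous) (by
      intro z hz
      refine hKU ?_
      simpa using hz)
    refine ⟨ee ⁻¹' V, hV1.preimage ee.continuous, ?_, ?_, ?_⟩
    · rw [hset, closure_pre]; exact preimage_mono hV2
    · intro p hp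
      have := hV3 hp
      simpa using this
    · intro S hSV hSc
      have h1 := hV4 (ee '' S) (by rintro _ ⟨p, hp, rfl⟩; exact hSV hp)
        (hSc.image ee.continuous)
      have h2 := ee.toHomeomorph.isCompact_preimage.2 h1
      convert h2 using 1
      ext p
      constructor
      · rintro ⟨hp1, hp2⟩
        refine ⟨hp1, fun f hf M hM => ?_⟩
        exact hp2 (fun p => f (ee p)) (diff_ee hf) M (fun w hw => hM _ ⟨w, hw, rfl⟩)
      · rintro ⟨hp1, hp2⟩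
        refine ⟨hp1, fun f hf M hM => ?_⟩
        have h3 := hp2 (fun z => f (ee.symm z)) (diff_ee_symm hf) M (by
          rintro _ ⟨w, hw, rfl⟩
          simpa using hM w hw)
        have h4 : ee.symm (ee.toHomeomorph p) = p := ee.symm_apply_apply p
        rw [h4] at h3
        exact h3
  obtain ⟨U, hU, hKU, h, hh, happ⟩ := approx_prod hH hconn' hS' (g := fun p => g (ee p))
    (hg1.comp eR.contDiff) (diff_ee hg2) hε
  refine ⟨ee.symm ⁻¹' U, hU.preimage ee.symm.continuous, ?_, fun z => h (ee.symm z), ?_, ?_⟩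
  · intro z hz
    refine hKU ?_
    rw [hset, closure_pre]
    simpa using hz
  · exact hh.comp ee.symm.differentiable.differentiableOn fun _ h => h
  · intro z hz
    have h1 := happ (ee.symm z) (by rw [hset, closure_pre]; simpa using hz)
    simpa using h1

end Pool.Helper51.Hart
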